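import Mathlib

set_option autoImplicit false
set_option maxHeartbeats 400000
set_option linter.unusedSectionVars false
set_option linter.unusedVariables false

/-! Weighted closed 4-walks in digraphs of semi-degree more than `n/2`: counting lemmas. -/

namespace Pool.Agent.H860Z.C4

open Finset

variable {V : Type} [Fintype V] [DecidableEq V]

/-- semi-degree above one half and no closed 4-walk of positive weight. -/
structure Hyp (E : V → V → Prop) [DecidableRel E] (w : V → ℤ) : Prop where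
  out : ∀ v, Fintype.card V < 2 * (univ.filter fun x => E v x).card
  inn : ∀ v, Fintype.card V < 2 * (univ.filter fun x => E x v).card
  walk : ∀ a b c d, E a b → E b c → E c d → E d a → w a + w b + w c + w d ≤ 0

variable {E : V → V → Prop} [DecidableRel E] {w : V → ℤ}

theorem Hyp.flip (H : Hyp E w) : Hyp (fun a b => E b a) w :=
  ⟨H.inn, H.out, fun a b c d h1 h2 h3 h4 => by have := H.walk a d c b h4 h3 h2 h1; omega⟩

theorem Hyp.dbl (H : Hyp E w) {a b : V} (h1 : E a b) (h2 : E b a) : w a + w b ≤ 0 := by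
  have := H.walk a b a b h1 h2 h1 h2; omega

theorem cnt (P Q Z X : Finset V) (hP : Fintype.card V < 2 * P.card)
    (hQ : Fintype.card V < 2 * Q.card) (h1 : ∀ v, v ∈ P → v ∈ Q → v ∈ Z)
    (h2 : ∀ v ∈ X, v ∉ P ∧ v ∉ Q) : X.card < Z.card := by
  have e1 := card_union_add_card_inter P Q
  have e2 : (P ∩ Q).card ≤ Z.card := card_le_card fun v hv =>
    h1 v (mem_inter.mp hv).1 (mem_inter.mp hv).2
  have e3 : Disjoint (P ∪ Q) X := by
    rw [disjoint_right]
    intro v hv hv2
    rcases mem_union.mp hv2 with h | h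
    · exact (h2 v hv).1 h
    · exact (h2 v hv).2 h
  have e4 := card_union_of_disjoint e3
  have e5 : (P ∪ Q ∪ X).card ≤ Fintype.card V := card_le_univ _
  omega

omit [Fintype V] in
theorem exists_half (X : Finset V) (hX : X.Nonempty) (has : ∀ a ∈ X, ∀ b ∈ X, E a b → ¬ E b a) :
    ∃ b ∈ X, X.card ≤ 2 * (X.filter fun x => ¬ E x b).card := by
  by_contra hcon
  push Not at hcon
  have h1 : ∑ b ∈ X, 2 * (X.filter fun x => ¬ E x b).card < ∑ _b ∈ X, X.card :=
    sum_lt_sum_of_nonempty hX hcon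
  have h2 : ∑ b ∈ X, (X.filter fun x => ¬ E x b).card
      = ∑ b ∈ X, (X.filter fun x => ¬ E b x).card := by
    simp only [card_filter]
    exact sum_comm
  have h3 : ∑ _b ∈ X, X.card ≤ ∑ b ∈ X, ((X.filter fun x => ¬ E x b).card
      + (X.filter fun x => ¬ E b x).card) := by
    apply sum_le_sum
    intro b hb
    refine le_trans (card_le_card ?_) (card_union_le _ _)
    intro x hx
    by_cases h : E x b
    · exact mem_union_right _ (mem_filter.mpr ⟨hx, has x hx b hb h⟩)
    · exact mem_union_left _ (mem_filter.mpr ⟨hx, h⟩)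
  rw [sum_add_distrib, ← h2] at h3
  rw [← mul_sum] at h1
  omega

/-- vertices of weight at most `-s`. -/
def Low (w : V → ℤ) (s : ℤ) : Finset V := univ.filter fun v => w v ≤ -s
/-- in-neighbours of `u` of weight at least `t`. -/
def Bt (E : V → V → Prop) [DecidableRel E] (w : V → ℤ) (u : V) (t : ℤ) : Finset V :=
  univ.filter fun v => E v u ∧ t ≤ w v
/-- sinks of `Bt`. -/
def Sk (E : V → V → Prop) [DecidableRel E] (w : V → ℤ) (u : V) (t : ℤ) : Finset V :=
  (Bt E w u t).filter fun v => ¬ ∃ x ∈ Bt E w u t, E v x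
/-- non-sinks of `Bt`. -/
def Ns (E : V → V → Prop) [DecidableRel E] (w : V → ℤ) (u : V) (t : ℤ) : Finset V :=
  (Bt E w u t).filter fun v => ∃ x ∈ Bt E w u t, E v x

omit [DecidableEq V] in
theorem mem_Low {s : ℤ} {v : V} : v ∈ Low w s ↔ w v ≤ -s := by simp [Low]
omit [DecidableEq V] in
theorem mem_Bt {u v : V} {t : ℤ} : v ∈ Bt E w u t ↔ E v u ∧ t ≤ w v := by simp [Bt]

omit [DecidableEq V] in
theorem Ns_add_Sk (u : V) (t : ℤ) : (Ns E w u t).card + (Sk E w u t).card = (Bt E w u t).card :=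
  card_filter_add_card_filter_not _

omit [DecidableEq V] in
theorem Low_anti {s s' : ℤ} (h : s ≤ s') : (Low w s').card ≤ (Low w s).card :=
  card_le_card fun v hv => mem_Low.mpr (by have := mem_Low.mp hv; omega)

theorem pick (H : Hyp E w) (u : V) (t : ℤ) (ht : 1 ≤ t) (hne : (Ns E w u t).Nonempty) :
    ∃ b ∈ Bt E w u t, (∃ b' ∈ Bt E w u t, E b b') ∧
      (Ns E w u t).card ≤ 2 * ((Ns E w u t).filter fun x => ¬ E x b).card := by
  obtain ⟨b, hb, h⟩ := exists_half (E := E) (Ns E w u t) hne (by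
    intro a ha b hb h1 h2
    have := H.dbl h1 h2
    have := (mem_Bt.mp (mem_filter.mp ha).1).2
    have := (mem_Bt.mp (mem_filter.mp hb).1).2
    omega)
  exact ⟨b, (mem_filter.mp hb).1, (mem_filter.mp hb).2, h⟩

theorem IB_aux (H : Hyp E w) (u : V) (hu : 1 ≤ w u) (t : ℤ) (ht : 1 ≤ t) {b b' : V}
    (hb : b ∈ Bt E w u t) (hb' : b' ∈ Bt E w u t) (hbb : E b b') :
    (Sk E w u t).card + ((Ns E w u t).filter fun x => ¬ E x b).card
      < (Low w (w u + 2 * t)).card := by
  have hd : Disjoint (Sk E w u t) ((Ns E w u t).filter fun x => ¬ E x b) := by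
    rw [disjoint_left]
    intro v h1 h2
    exact (mem_filter.mp h1).2 (mem_filter.mp (mem_filter.mp h2).1).2
  rw [← card_union_of_disjoint hd]
  refine cnt _ _ _ _ (H.out u) (H.inn b) ?_ ?_
  · intro v h1 h2
    have := H.walk b b' u v hbb (mem_Bt.mp hb').1 (mem_filter.mp h1).2 (mem_filter.mp h2).2
    have := (mem_Bt.mp hb).2
    have := (mem_Bt.mp hb').2
    exact mem_Low.mpr (by omega)
  · intro v hv
    have hvB : v ∈ Bt E w u t := by
      rcases mem_union.mp hv with h | h
      · exact (mem_filter.mp h).1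
      · exact (mem_filter.mp (mem_filter.mp h).1).1
    constructor
    · intro h
      have := H.dbl (mem_filter.mp h).2 (mem_Bt.mp hvB).1
      have := (mem_Bt.mp hvB).2
      omega
    · intro h
      rcases mem_union.mp hv with h' | h'
      · exact (mem_filter.mp h').2 ⟨b, hb, (mem_filter.mp h).2⟩
      · exact (mem_filter.mp h').2 (mem_filter.mp h).2

theorem IB (H : Hyp E w) (u : V) (hu : 1 ≤ w u) (t : ℤ) (ht : 1 ≤ t)
    (hne : (Ns E w u t).Nonempty) :
    (Bt E w u t).card + (Sk E w u t).card ≤ 2 * (Low w (w u + 2 * t)).card := by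
  obtain ⟨b, hb, ⟨b', hb', hbb⟩, h⟩ := pick H u t ht hne
  have := IB_aux H u hu t ht hb hb' hbb
  have := Ns_add_Sk (E := E) (w := w) u t
  omega

theorem AB_disj (H : Hyp E w) (u : V) (hu : 1 ≤ w u) (t : ℤ) (ht : 1 ≤ t) {v : V}
    (h1 : v ∈ Bt (fun a b => E b a) w u t) (h2 : v ∈ Bt E w u t) : False := by
  have := H.dbl (mem_Bt.mp h1).1 (mem_Bt.mp h2).1
  have := (mem_Bt.mp h2).2
  omega

theorem R1a (H : Hyp E w) (u : V) (hu : 1 ≤ w u) (t : ℤ) (ht : 1 ≤ t)
    (hA : (Bt (fun a b => E b a) w u t).Nonempty) (hne : (Ns E w u t).Nonempty) :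
    (Bt (fun a b => E b a) w u t).card + (Bt E w u t).card ≤ 2 * (Low w (w u + 2 * t)).card := by
  obtain ⟨b, hb, ⟨b', hb', hbb⟩, h⟩ := pick H u t ht hne
  have hB := Ns_add_Sk (E := E) (w := w) u t
  have low : ∀ a ∈ Bt (fun a b => E b a) w u t, ∀ v, v ∈ (univ.filter fun x => E a x) →
      v ∈ (univ.filter fun x => E x b) → v ∈ Low w (w u + 2 * t) := by
    intro a ha v h1 h2
    have := H.walk u a v b (mem_Bt.mp ha).1 (mem_filter.mp h1).2 (mem_filter.mp h2).2
      (mem_Bt.mp hb).1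
    have := (mem_Bt.mp hb).2
    have := (mem_Bt.mp ha).2
    exact mem_Low.mpr (by omega)
  have noAB : ∀ a ∈ Bt (fun a b => E b a) w u t, ∀ x ∈ Ns E w u t, ¬ E a x := by
    intro a ha x hx hax
    obtain ⟨hx1, x', hx', hxx⟩ := mem_filter.mp hx
    have := H.walk u a x x' (mem_Bt.mp ha).1 hax hxx (mem_Bt.mp hx').1
    have := (mem_Bt.mp ha).2
    have := (mem_Bt.mp hx1).2
    have := (mem_Bt.mp hx').2
    omega
  have hbN : b ∈ Ns E w u t := mem_filter.mpr ⟨hb, b', hb', hbb⟩
  by_cases hA2 : (Ns (fun a b => E b a) w u t).Nonempty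
  · obtain ⟨a, ha, ⟨a', ha', haa⟩, h'⟩ := pick H.flip u t ht hA2
    have hA3 := Ns_add_Sk (E := fun a b => E b a) (w := w) u t
    set X1 := Sk (fun a b => E b a) w u t ∪
      (Ns (fun a b => E b a) w u t).filter fun x => ¬ E a x with hX1
    set X2 := Sk E w u t ∪ (Ns E w u t).filter fun x => ¬ E x b with hX2
    have s1 : ∀ v ∈ X1, v ∈ Bt (fun a b => E b a) w u t ∧ ¬ E a v := by
      intro v hv
      rcases mem_union.mp hv with h1 | h1
      · exact ⟨(mem_filter.mp h1).1, fun h2 => (mem_filter.mp h1).2 ⟨a, ha, h2⟩⟩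
      · exact ⟨(mem_filter.mp (mem_filter.mp h1).1).1, (mem_filter.mp h1).2⟩
    have s2 : ∀ v ∈ X2, v ∈ Bt E w u t ∧ ¬ E v b := by
      intro v hv
      rcases mem_union.mp hv with h1 | h1
      · exact ⟨(mem_filter.mp h1).1, fun h2 => (mem_filter.mp h1).2 ⟨b, hb, h2⟩⟩
      · exact ⟨(mem_filter.mp (mem_filter.mp h1).1).1, (mem_filter.mp h1).2⟩
    have c1 : X1.card = (Sk (fun a b => E b a) w u t).card +
        ((Ns (fun a b => E b a) w u t).filter fun x => ¬ E a x).card := by
      apply card_union_of_disjoint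
      rw [disjoint_left]
      intro v h1 h2
      exact (mem_filter.mp h1).2 (mem_filter.mp (mem_filter.mp h2).1).2
    have c2 : X2.card = (Sk E w u t).card + ((Ns E w u t).filter fun x => ¬ E x b).card := by
      apply card_union_of_disjoint
      rw [disjoint_left]
      intro v h1 h2
      exact (mem_filter.mp h1).2 (mem_filter.mp (mem_filter.mp h2).1).2
    have c3 : (X1 ∪ X2).card = X1.card + X2.card := by
      apply card_union_of_disjoint
      rw [disjoint_left]
      intro v h1 h2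
      exact AB_disj H u hu t ht (s1 v h1).1 (s2 v h2).1
    have := cnt _ _ (Low w (w u + 2 * t)) (X1 ∪ X2) (H.out a) (H.inn b) (low a ha) (by
      intro v hv
      rcases mem_union.mp hv with h1 | h1
      · exact ⟨fun h2 => (s1 v h1).2 (mem_filter.mp h2).2,
          fun h2 => noAB v (s1 v h1).1 b hbN (mem_filter.mp h2).2⟩
      · refine ⟨fun h2 => ?_, fun h2 => (s2 v h1).2 (mem_filter.mp h2).2⟩
        have := H.walk u a' a v (mem_Bt.mp ha').1 haa (mem_filter.mp h2).2 (mem_Bt.mp (s2 v h1).1).1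
        have := (mem_Bt.mp ha).2
        have := (mem_Bt.mp ha').2
        have := (mem_Bt.mp (s2 v h1).1).2
        omega)
    omega
  · obtain ⟨a, ha⟩ := hA
    have i1 := IB_aux H u hu t ht hb hb' hbb
    have c3 : (Bt (fun a b => E b a) w u t ∪ (Ns E w u t).filter fun x => ¬ E x b).card =
        (Bt (fun a b => E b a) w u t).card + ((Ns E w u t).filter fun x => ¬ E x b).card := by
      apply card_union_of_disjoint
      rw [disjoint_left]
      intro v h1 h2
      exact AB_disj H u hu t ht h1 (mem_filter.mp (mem_filter.mp h2).1).1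
    have := cnt _ _ (Low w (w u + 2 * t))
      (Bt (fun a b => E b a) w u t ∪ (Ns E w u t).filter fun x => ¬ E x b)
      (H.out a) (H.inn b) (low a ha) (by
      intro v hv
      rcases mem_union.mp hv with h1 | h1
      · exact ⟨fun h2 => hA2 ⟨v, mem_filter.mpr ⟨h1, a, ha, (mem_filter.mp h2).2⟩⟩,
          fun h2 => noAB v h1 b hbN (mem_filter.mp h2).2⟩
      · exact ⟨fun h2 => noAB a ha v (mem_filter.mp h1).1 (mem_filter.mp h2).2,
          fun h2 => (mem_filter.mp h1).2 (mem_filter.mp h2).2⟩)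
    omega

/-- vertices of weight at least `t`. -/
def High (w : V → ℤ) (t : ℤ) : Finset V := univ.filter fun v => t ≤ w v

theorem key_prop (x1 x2 x3 x4 x5 x6 x7 x8 : Prop) [Decidable x1] [Decidable x2] [Decidable x3]
    [Decidable x4] [Decidable x5] [Decidable x6] [Decidable x7] [Decidable x8]
    (p1 : x3 → x6 → x8) (p2 : x5 → x2 → x8) (p3 : x1 → x4 → x8) (q1 : x7 → x1 → x2 → False)
    (q2 : x7 → x3 → x4 → False) (q3 : x7 → x5 → x6 → False) (r1 : x7 → x1 → x3 → False)
    (r2 : x7 → x1 → x4 → False) (r3 : x7 → x2 → x6 → False) (r4 : x7 → x2 → x5 → False)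
    (s0 : x7 → x8 → False) :
    (if x1 then 1 else 0) + (if x2 then 1 else 0) + (if x3 then 1 else 0)
      + (if x4 then 1 else 0) + (if x5 then 1 else 0) + (if x6 then 1 else 0)
      + (if x7 then 1 else 0) ≤ 3 + 3 * (if x8 then 1 else 0) := by
  by_cases h7 : x7
  · have h8 : ¬ x8 := s0 h7
    by_cases h1 : x1 <;> by_cases h2 : x2 <;> by_cases h3 : x3 <;> by_cases h4 : x4 <;>
      by_cases h5 : x5 <;> by_cases h6 : x6 <;>
      first
        | (exfalso; first | exact h8 (p1 h3 h6) | exact h8 (p2 h5 h2) | exact h8 (p3 h1 h4)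
                          | exact q1 h7 h1 h2 | exact q2 h7 h3 h4 | exact q3 h7 h5 h6
                          | exact r1 h7 h1 h3 | exact r2 h7 h1 h4 | exact r3 h7 h2 h6
                          | exact r4 h7 h2 h5)
        | simp only [h1, h2, h3, h4, h5, h6, h7, h8, if_true, if_false]; omega
  · by_cases h8 : x8
    · simp only [h7, h8, if_true, if_false]
      split_ifs <;> omega
    · by_cases h1 : x1 <;> by_cases h2 : x2 <;> by_cases h3 : x3 <;> by_cases h4 : x4 <;>
        by_cases h5 : x5 <;> by_cases h6 : x6 <;>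
        first
          | (exfalso; first | exact h8 (p1 h3 h6) | exact h8 (p2 h5 h2) | exact h8 (p3 h1 h4))
          | simp only [h1, h2, h3, h4, h5, h6, h7, h8, if_true, if_false]; omega

theorem triangle (H : Hyp E w) (u : V) (hu : 1 ≤ w u) (t : ℤ) (ht : 1 ≤ t) {a b : V}
    (ha : a ∈ Bt (fun a b => E b a) w u t) (hb : b ∈ Bt E w u t) (hab : E a b)
    (hA : ¬ (Ns (fun a b => E b a) w u t).Nonempty) (hB : ¬ (Ns E w u t).Nonempty) :
    (High w t).card ≤ 3 * (Low w (w u + 2 * t)).card := by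
  have hua : E u a := (mem_Bt.mp ha).1
  have hbu : E b u := (mem_Bt.mp hb).1
  have hwa := (mem_Bt.mp ha).2
  have hwb := (mem_Bt.mp hb).2
  have key : ∀ v, (if E u v then 1 else 0) + (if E v u then 1 else 0) + (if E a v then 1 else 0)
      + (if E v a then 1 else 0) + (if E b v then 1 else 0) + (if E v b then 1 else 0)
      + (if t ≤ w v then 1 else 0) ≤ 3 + 3 * (if w v ≤ -(w u + 2 * t) then 1 else 0) := by
    intro v
    have p1 : E a v → E v b → w v ≤ -(w u + 2 * t) := fun h1 h2 => by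
      have := H.walk u a v b hua h1 h2 hbu; omega
    have p2 : E b v → E v u → w v ≤ -(w u + 2 * t) := fun h1 h2 => by
      have := H.walk u a b v hua hab h1 h2; omega
    have p3 : E u v → E v a → w v ≤ -(w u + 2 * t) := fun h1 h2 => by
      have := H.walk u v a b h1 h2 hab hbu; omega
    have q1 : t ≤ w v → E u v → E v u → False := fun h0 h1 h2 => by
      have := H.dbl h1 h2; omega
    have q2 : t ≤ w v → E a v → E v a → False := fun h0 h1 h2 => by
      have := H.dbl h1 h2; omega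
    have q3 : t ≤ w v → E b v → E v b → False := fun h0 h1 h2 => by
      have := H.dbl h1 h2; omega
    have r1 : t ≤ w v → E u v → E a v → False := fun h0 h1 h2 =>
      hA ⟨v, mem_filter.mpr ⟨mem_Bt.mpr ⟨h1, h0⟩, a, ha, h2⟩⟩
    have r2 : t ≤ w v → E u v → E v a → False := fun h0 h1 h2 =>
      hA ⟨a, mem_filter.mpr ⟨ha, v, mem_Bt.mpr ⟨h1, h0⟩, h2⟩⟩
    have r3 : t ≤ w v → E v u → E v b → False := fun h0 h1 h2 =>
      hB ⟨v, mem_filter.mpr ⟨mem_Bt.mpr ⟨h1, h0⟩, b, hb, h2⟩⟩
    have r4 : t ≤ w v → E v u → E b v → False := fun h0 h1 h2 =>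
      hB ⟨b, mem_filter.mpr ⟨hb, v, mem_Bt.mpr ⟨h1, h0⟩, h2⟩⟩
    have s0 : t ≤ w v → w v ≤ -(w u + 2 * t) → False := fun h0 h1 => by omega
    exact key_prop _ _ _ _ _ _ _ _ p1 p2 p3 q1 q2 q3 r1 r2 r3 r4 s0
  have hs := sum_le_sum (s := univ) fun v _ => key v
  simp only [sum_add_distrib, ← mul_sum, ← card_filter, sum_const, card_univ, smul_eq_mul] at hs
  have := H.out u; have := H.inn u; have := H.out a; have := H.inn a
  have := H.out b; have := H.inn b
  unfold High Low
  omega

theorem R1 (H : Hyp E w) (u : V) (hu : 1 ≤ w u) (t : ℤ) (ht : 1 ≤ t)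
    (hA : (Bt (fun a b => E b a) w u t).Nonempty) (hB : (Bt E w u t).Nonempty) :
    (Bt (fun a b => E b a) w u t).card + (Bt E w u t).card ≤ 2 * (Low w (w u + 2 * t)).card ∨
      (High w t).card ≤ 3 * (Low w (w u + 2 * t)).card := by
  by_cases h1 : (Ns E w u t).Nonempty
  · exact Or.inl (R1a H u hu t ht hA h1)
  by_cases h2 : (Ns (fun a b => E b a) w u t).Nonempty
  · have : (Bt E w u t).card + (Bt (fun a b => E b a) w u t).card
        ≤ 2 * (Low w (w u + 2 * t)).card := R1a H.flip u hu t ht hB h2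
    left; omega
  by_cases h3 : ∃ a ∈ Bt (fun a b => E b a) w u t, ∃ b ∈ Bt E w u t, E a b
  · obtain ⟨a, ha, b, hb, hab⟩ := h3
    exact Or.inr (triangle H u hu t ht ha hb hab h2 h1)
  obtain ⟨a, ha⟩ := hA
  obtain ⟨b, hb⟩ := hB
  left
  have c3 : (Bt (fun a b => E b a) w u t ∪ Bt E w u t).card =
      (Bt (fun a b => E b a) w u t).card + (Bt E w u t).card := by
    apply card_union_of_disjoint
    rw [disjoint_left]
    intro v h1 h2
    exact AB_disj H u hu t ht h1 h2
  have := cnt _ _ (Low w (w u + 2 * t)) (Bt (fun a b => E b a) w u t ∪ Bt E w u t)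
    (H.out a) (H.inn b) (by
      intro v h1 h2
      have := H.walk u a v b (mem_Bt.mp ha).1 (mem_filter.mp h1).2 (mem_filter.mp h2).2
        (mem_Bt.mp hb).1
      have := (mem_Bt.mp hb).2
      have := (mem_Bt.mp ha).2
      exact mem_Low.mpr (by omega)) (by
      intro v hv
      rcases mem_union.mp hv with h | h
      · exact ⟨fun h' => h2 ⟨v, mem_filter.mpr ⟨h, a, ha, (mem_filter.mp h').2⟩⟩,
          fun h' => h3 ⟨v, h, b, hb, (mem_filter.mp h').2⟩⟩
      · exact ⟨fun h' => h3 ⟨a, ha, v, h, (mem_filter.mp h').2⟩,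
          fun h' => h1 ⟨v, mem_filter.mpr ⟨h, b, hb, (mem_filter.mp h').2⟩⟩⟩)
  omega

end Pool.Agent.H860Z.C4
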