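import Pool.Agent.H860Z.C4A

set_option autoImplicit false
set_option maxHeartbeats 400000
set_option linter.unusedSectionVars false

/-! The weighted closed 4-walk lemma. -/

namespace Pool.Agent.H860Z.C4

open Finset

variable {V : Type} [Fintype V] [DecidableEq V]
variable {E : V → V → Prop} [DecidableRel E] {w : V → ℤ}

/-- double neighbours. -/
def Dn (E : V → V → Prop) [DecidableRel E] (u : V) : Finset V := univ.filter fun v => E u v ∧ E v u
/-- non-neighbours. -/
def On (E : V → V → Prop) [DecidableRel E] (u : V) : Finset V :=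
  univ.filter fun v => ¬ E u v ∧ ¬ E v u

theorem On_lt (H : Hyp E w) (u : V) : (On E u).card < (Dn E u).card :=
  cnt _ _ _ _ (H.out u) (H.inn u)
    (fun _ h1 h2 => mem_filter.mpr ⟨mem_univ _, (mem_filter.mp h1).2, (mem_filter.mp h2).2⟩)
    (fun _ hv => ⟨fun h => (mem_filter.mp hv).2.1 (mem_filter.mp h).2,
      fun h => (mem_filter.mp hv).2.2 (mem_filter.mp h).2⟩)

theorem High_le (u : V) (t : ℤ) : (High w t).card ≤
    (Bt (fun a b => E b a) w u t).card + (Bt E w u t).card + (On E u).card := by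
  refine le_trans (card_le_card ?_) ((card_union_le _ _).trans
    (Nat.add_le_add_right (card_union_le _ _) _))
  intro v hv
  have h := (mem_filter.mp hv).2
  by_cases h1 : E u v
  · exact mem_union_left _ (mem_union_left _ (mem_Bt.mpr ⟨h1, h⟩))
  by_cases h2 : E v u
  · exact mem_union_left _ (mem_union_right _ (mem_Bt.mpr ⟨h2, h⟩))
  · exact mem_union_right _ (mem_filter.mpr ⟨mem_univ _, h1, h2⟩)

theorem Dn_sub (H : Hyp E w) (u : V) (t : ℤ) (ht : t ≤ w u) : Dn E u ⊆ Low w t := by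
  intro v hv
  have := H.dbl (mem_filter.mp hv).2.1 (mem_filter.mp hv).2.2
  exact mem_Low.mpr (by omega)

theorem step0 (H : Hyp E w) (u : V) (t : ℤ) (ht : 1 ≤ t) (h : ∀ v, E u v → w v ≤ -t) :
    (High w t).card ≤ (Low w t).card :=
  (cnt _ _ _ _ (H.out u) (H.out u) (fun v h1 _ => mem_Low.mpr (h v (mem_filter.mp h1).2))
    (fun v hv => by
      have h1 := (mem_filter.mp hv).2
      constructor <;> intro h2 <;> have := h v (mem_filter.mp h2).2 <;> omega)).le

theorem step1 (H : Hyp E w) (u : V) (t : ℤ) (ht : 1 ≤ t) (htu : t ≤ w u)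
    (hA : (Bt (fun a b => E b a) w u t).Nonempty) (hB : (Bt E w u t).Nonempty) :
    (High w t).card ≤ (Low w t).card + 2 * (Low w (w u + 2 * t)).card := by
  have h1 := High_le (E := E) (w := w) u t
  have h2 := On_lt H u
  have h3 := card_le_card (Dn_sub H u t htu)
  have h4 : (Low w (w u + 2 * t)).card ≤ (Low w t).card := Low_anti (by omega)
  rcases R1 H u (by omega) t ht hA hB with h | h <;> omega

theorem step2 (H : Hyp E w) (u : V) (t : ℤ) (ht : 1 ≤ t) (htu : t ≤ w u)
    (hA : Bt (fun a b => E b a) w u t = ∅) (hne : (Ns E w u t).Nonempty) :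
    (High w t).card + (Sk E w u t).card ≤ (Low w t).card + 2 * (Low w (w u + 2 * t)).card := by
  have h1 := High_le (E := E) (w := w) u t
  have h2 := On_lt H u
  have h3 := card_le_card (Dn_sub H u t htu)
  have h4 := IB H u (by omega) t ht hne
  rw [hA, card_empty] at h1
  omega

theorem step3a (H : Hyp E w) (u : V) (t t' : ℤ) (htt : t' ≤ t) (htu : t ≤ w u)
    (hA : Bt (fun a b => E b a) w u t = ∅)
    (hno : ¬ ∃ b ∈ Bt E w u t, ∃ b' ∈ Bt E w u t', E b b') :
    (High w t).card ≤ (Low w t).card + (Sk E w u t').card := by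
  have h1 := High_le (E := E) (w := w) u t
  have h2 := On_lt H u
  have h3 := card_le_card (Dn_sub H u t htu)
  have h4 : (Bt E w u t).card ≤ (Sk E w u t').card := card_le_card fun v hv =>
    mem_filter.mpr ⟨mem_Bt.mpr ⟨(mem_Bt.mp hv).1, htt.trans (mem_Bt.mp hv).2⟩,
      fun h => hno ⟨v, hv, h⟩⟩
  rw [hA, card_empty] at h1
  omega

theorem step3b (H : Hyp E w) (u : V) (t t' : ℤ) (ht : 1 ≤ t) (htu : t ≤ w u)
    (hA : Bt (fun a b => E b a) w u t = ∅) (hN : ¬ (Ns E w u t).Nonempty)
    (hy : ∃ b ∈ Bt E w u t, ∃ b' ∈ Bt E w u t', E b b') :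
    (High w t).card ≤ (Low w t).card + (Low w (w u + t + t')).card := by
  have h1 := High_le (E := E) (w := w) u t
  have h2 := On_lt H u
  have h3 := card_le_card (Dn_sub H u t htu)
  obtain ⟨b, hb, b', hb', hbb⟩ := hy
  have h4 := cnt _ _ (Low w (w u + t + t')) (Bt E w u t) (H.out u) (H.inn b) (by
    intro v h1 h2
    have := H.walk b b' u v hbb (mem_Bt.mp hb').1 (mem_filter.mp h1).2 (mem_filter.mp h2).2
    have := (mem_Bt.mp hb).2
    have := (mem_Bt.mp hb').2
    exact mem_Low.mpr (by omega)) (by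
    intro v hv
    constructor
    · intro h
      have := H.dbl (mem_filter.mp h).2 (mem_Bt.mp hv).1
      have := (mem_Bt.mp hv).2
      omega
    · exact fun h => hN ⟨v, mem_filter.mpr ⟨hv, b, hb, (mem_filter.mp h).2⟩⟩)
  rw [hA, card_empty] at h1
  omega

theorem step3c (H : Hyp E w) (u : V) (t : ℤ) (htu : t ≤ w u)
    (hA : Bt (fun a b => E b a) w u t = ∅) (hN : ¬ (Ns E w u t).Nonempty) (a : V) (ha : E u a) :
    (High w t).card ≤ (Low w t).card + (Low w (w u + w a + t)).card := by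
  have h1 := High_le (E := E) (w := w) u t
  have h2 := On_lt H u
  have h3 := card_le_card (Dn_sub H u t htu)
  rw [hA, card_empty] at h1
  rcases (Bt E w u t).eq_empty_or_nonempty with hB | ⟨b0, hb0⟩
  · rw [hB, card_empty] at h1; omega
  by_cases hab : ∃ b ∈ Bt E w u t, E a b
  · obtain ⟨b, hb, hab⟩ := hab
    have h4 := cnt _ _ ((Low w t \ Dn E u) ∪ Low w (w u + w a + t)) (Bt E w u t)
      (H.out b) (H.inn b) (by
      intro v h1 h2
      have hwb := (mem_Bt.mp hb).2
      by_cases hv : v ∈ Dn E u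
      · have := H.walk u a b v ha hab (mem_filter.mp h1).2 (mem_filter.mp hv).2.2
        exact mem_union_right _ (mem_Low.mpr (by omega))
      · have := H.dbl (mem_filter.mp h1).2 (mem_filter.mp h2).2
        exact mem_union_left _ (mem_sdiff.mpr ⟨mem_Low.mpr (by omega), hv⟩)) (by
      intro v hv
      exact ⟨fun h => hN ⟨b, mem_filter.mpr ⟨hb, v, hv, (mem_filter.mp h).2⟩⟩,
        fun h => hN ⟨v, mem_filter.mpr ⟨hv, b, hb, (mem_filter.mp h).2⟩⟩⟩)
    have h5 := card_union_le (Low w t \ Dn E u) (Low w (w u + w a + t))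
    have h6 := card_sdiff_add_card_eq_card (Dn_sub H u t htu)
    omega
  · have h4 := cnt _ _ (Low w (w u + w a + t)) (Bt E w u t) (H.out a) (H.inn b0) (by
      intro v h1 h2
      have := H.walk u a v b0 ha (mem_filter.mp h1).2 (mem_filter.mp h2).2 (mem_Bt.mp hb0).1
      have := (mem_Bt.mp hb0).2
      exact mem_Low.mpr (by omega)) (by
      intro v hv
      exact ⟨fun h => hab ⟨v, hv, (mem_filter.mp h).2⟩,
        fun h => hN ⟨v, mem_filter.mpr ⟨hv, b0, hb0, (mem_filter.mp h).2⟩⟩⟩)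
    omega

theorem level_sum (M : ℕ) (x : ℤ) :
    (∑ t ∈ range M, if (t : ℤ) + 1 ≤ x then (1 : ℤ) else 0) = max 0 (min x M) := by
  induction M with
  | zero => simp
  | succ M ih =>
    rw [sum_range_succ, ih]
    push_cast
    split_ifs <;> omega

theorem sum_le_levels (w : V → ℤ) (M F : ℕ) (hM : ∀ v, w v ≤ M) :
    ∑ v, w v ≤ (∑ t ∈ range M, ((High w ((t : ℤ) + 1)).card : ℤ))
      - ∑ s ∈ range F, ((Low w ((s : ℤ) + 1)).card : ℤ) := by
  have e1 : ∀ t : ℕ, ((High w ((t : ℤ) + 1)).card : ℤ)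
      = ∑ v, if (t : ℤ) + 1 ≤ w v then (1 : ℤ) else 0 := by
    intro t; simp [High]
  have e2 : ∀ t : ℕ, ((Low w ((t : ℤ) + 1)).card : ℤ)
      = ∑ v, if (t : ℤ) + 1 ≤ - w v then (1 : ℤ) else 0 := by
    intro t
    simp only [Low, card_filter]
    push_cast
    refine sum_congr rfl fun v _ => ?_
    congr 1
    apply propext
    omega
  simp only [e1, e2]
  rw [sum_comm, sum_comm (s := range F), ← sum_sub_distrib]
  refine sum_le_sum fun v _ => ?_
  rw [level_sum, level_sum]
  have := hM v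
  omega

theorem Ns_anti (u : V) {t t' : ℤ} (h : t' ≤ t) (hne : (Ns E w u t).Nonempty) :
    (Ns E w u t').Nonempty := by
  obtain ⟨v, hv⟩ := hne
  obtain ⟨h1, x, hx, hvx⟩ := mem_filter.mp hv
  exact ⟨v, mem_filter.mpr ⟨mem_Bt.mpr ⟨(mem_Bt.mp h1).1, h.trans (mem_Bt.mp h1).2⟩, x,
    mem_Bt.mpr ⟨(mem_Bt.mp hx).1, h.trans (mem_Bt.mp hx).2⟩, hvx⟩⟩

theorem main_aux (H : Hyp E w) (u : V) (M : ℕ) (hM : w u = M) (hmax : ∀ v, w v ≤ M)
    (a b : V) (ha : E u a) (hb : E b u) (hamax : ∀ v, E u v → w v ≤ w a) (hab : w a ≤ w b) :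
    ∑ v, w v ≤ 0 := by
  set SH : ℕ → ℕ := fun k => ∑ t ∈ range k, (High w ((t : ℤ) + 1)).card with hSH
  set SG : ℕ → ℕ := fun k => ∑ t ∈ range k, (Low w ((t : ℤ) + 1)).card with hSG
  set Dp : ℕ → ℕ := fun k => ∑ t ∈ range k, (Low w ((M : ℤ) + t + 1)).card with hDp
  have fin : ∀ F, SH M ≤ SG M + Dp F → ∑ v, w v ≤ 0 := by
    intro F h
    have h1 := sum_le_levels w M (M + F) hmax
    rw [sum_range_add] at h1
    have h2 : ((SH M : ℕ) : ℤ) ≤ ((SG M + Dp F : ℕ) : ℤ) := by exact_mod_cast h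
    simp only [hSH, hSG, hDp] at h2
    push_cast at h1 h2
    omega
  have triv : ∀ k : ℕ, (k : ℤ) ≤ - w a → SH k ≤ SG k := by
    intro k hk
    refine sum_le_sum fun t ht => step0 H u _ (by omega) fun v hv => ?_
    have := hamax v hv
    have := mem_range.mp ht
    omega
  by_cases hc : (M : ℤ) ≤ - w a
  · exact fin 0 ((triv M hc).trans (Nat.le_add_right _ _))
  have SHs : ∀ k, SH (k + 1) = SH k + (High w ((k : ℤ) + 1)).card := fun k => sum_range_succ _ _
  have SGs : ∀ k, SG (k + 1) = SG k + (Low w ((k : ℤ) + 1)).card := fun k => sum_range_succ _ _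
  have Dps : ∀ k, Dp (k + 1) = Dp k + (Low w ((M : ℤ) + k + 1)).card :=
    fun k => sum_range_succ _ _
  obtain ⟨r0, f0, e1, e2, e3, e4, start⟩ : ∃ r0 f0 : ℕ, (f0 : ℤ) = r0 + w a ∧ f0 ≤ 2 * r0 ∧
      w a ≤ r0 ∧ r0 ≤ M ∧ SH r0 ≤ SG r0 + Dp f0 := by
    rcases le_total (w a) 0 with h0 | h0
    · refine ⟨(- w a).toNat, 0, by omega, by omega, by omega, by omega, ?_⟩
      exact (triv _ (by omega)).trans (Nat.le_add_right _ _)
    · have hind : ∀ k : ℕ, (k : ℤ) ≤ w a → SH k ≤ SG k + Dp (2 * k) := by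
        intro k
        induction k with
        | zero => intro _; simp [hSH]
        | succ k ih =>
          intro hk
          push_cast at hk
          have i1 := ih (by omega)
          have i2 := step1 H u ((k : ℤ) + 1) (by omega) (by have := hmax a; omega)
            ⟨a, mem_Bt.mpr ⟨ha, hk⟩⟩ ⟨b, mem_Bt.mpr ⟨hb, by omega⟩⟩
          have i3 : (Low w (w u + 2 * ((k : ℤ) + 1))).card
              ≤ (Low w ((M : ℤ) + (2 * k : ℕ) + 1)).card := Low_anti (by push_cast; omega)
          have i4 : (Low w (w u + 2 * ((k : ℤ) + 1))).card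
              ≤ (Low w ((M : ℤ) + (2 * k + 1 : ℕ) + 1)).card := Low_anti (by push_cast; omega)
          rw [SHs, SGs, show 2 * (k + 1) = 2 * k + 1 + 1 by ring, Dps, Dps]
          omega
      have := hmax a
      exact ⟨(w a).toNat, 2 * (w a).toNat, by omega, le_rfl, by omega, by omega,
        hind _ (by omega)⟩
  set SS : ℕ → ℕ := fun j => ∑ i ∈ range j, (Sk E w u ((r0 : ℤ) + i + 1)).card with hSS
  have SSs : ∀ k, SS (k + 1) = SS k + (Sk E w u ((r0 : ℤ) + k + 1)).card :=
    fun k => sum_range_succ _ _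
  have hind : ∀ k : ℕ, r0 + k ≤ M → ∃ j ≤ k, SH (r0 + k) + SS j ≤ SG (r0 + k) + Dp (f0 + k + j) ∧
      ((Ns E w u ((r0 : ℤ) + k + 1)).Nonempty → j = k) := by
    intro k
    induction k with
    | zero => intro _; exact ⟨0, le_rfl, by simpa [hSS] using start, fun _ => rfl⟩
    | succ k ih =>
      intro hk
      obtain ⟨j, hj, i1, i2⟩ := ih (by omega)
      have hA : Bt (fun a b => E b a) w u ((r0 : ℤ) + k + 1) = ∅ := by
        rw [eq_empty_iff_forall_notMem]
        intro v hv
        have := hamax v (mem_Bt.mp hv).1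
        have := (mem_Bt.mp hv).2
        omega
      have c1 : ((r0 + k : ℕ) : ℤ) + 1 = (r0 : ℤ) + k + 1 := by push_cast; ring
      by_cases hN : (Ns E w u ((r0 : ℤ) + k + 1)).Nonempty
      · have hjk := i2 hN
        subst hjk
        refine ⟨j + 1, le_rfl, ?_, fun _ => rfl⟩
        have i3 := step2 H u _ (by omega) (by omega) hA hN
        have i4 : (Low w (w u + 2 * ((r0 : ℤ) + j + 1))).card
            ≤ (Low w ((M : ℤ) + (f0 + j + j : ℕ) + 1)).card := Low_anti (by push_cast; omega)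
        have i5 : (Low w (w u + 2 * ((r0 : ℤ) + j + 1))).card
            ≤ (Low w ((M : ℤ) + (f0 + j + j + 1 : ℕ) + 1)).card := Low_anti (by push_cast; omega)
        rw [← Nat.add_assoc r0, SHs, SGs, SSs, show f0 + (j + 1) + (j + 1) = f0 + j + j + 1 + 1 by
          ring, Dps, Dps, c1]
        omega
      · have hvac : ∀ j', (Ns E w u ((r0 : ℤ) + (k + 1 : ℕ) + 1)).Nonempty → j' = k + 1 :=
          fun j' h => (hN (Ns_anti u (by push_cast; omega) h)).elim
        rcases j with _ | j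
        · refine ⟨0, by omega, ?_, hvac _⟩
          have i3 := step3c H u ((r0 : ℤ) + k + 1) (by omega) hA hN a ha
          have i4 : (Low w (w u + w a + ((r0 : ℤ) + k + 1))).card
              ≤ (Low w ((M : ℤ) + (f0 + k : ℕ) + 1)).card := Low_anti (by push_cast; omega)
          rw [← Nat.add_assoc r0, SHs, SGs, show f0 + (k + 1) + 0 = f0 + k + 1 by ring, Dps, c1]
          rw [Nat.add_zero] at i1
          omega
        · by_cases hy : ∃ b ∈ Bt E w u ((r0 : ℤ) + k + 1), ∃ b' ∈ Bt E w u ((r0 : ℤ) + j + 1), E b b'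
          · refine ⟨j + 1, by omega, ?_, hvac _⟩
            have i3 := step3b H u _ _ (by omega) (by omega) hA hN hy
            have i4 : (Low w (w u + ((r0 : ℤ) + k + 1) + ((r0 : ℤ) + j + 1))).card
                ≤ (Low w ((M : ℤ) + (f0 + k + (j + 1) : ℕ) + 1)).card :=
              Low_anti (by push_cast; omega)
            rw [← Nat.add_assoc r0, SHs, SGs,
              show f0 + (k + 1) + (j + 1) = f0 + k + (j + 1) + 1 by ring, Dps, c1]
            omega
          · refine ⟨j, by omega, ?_, hvac _⟩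
            have i3 := step3a H u _ _ (by omega) (by omega) hA hy
            rw [SSs] at i1
            rw [← Nat.add_assoc r0, SHs, SGs,
              show f0 + (k + 1) + j = f0 + k + (j + 1) by ring, c1]
            omega
  obtain ⟨j, -, i1, -⟩ := hind (M - r0) (by omega)
  rw [show r0 + (M - r0) = M by omega] at i1
  exact fin _ (le_trans (Nat.le_add_right _ _) i1)

theorem W0 (H : Hyp E w) : ∑ v, w v ≤ 0 := by
  by_cases h0 : ∀ v, w v ≤ 0
  · exact sum_nonpos fun v _ => h0 v
  push Not at h0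
  obtain ⟨v0, hv0⟩ := h0
  obtain ⟨u, -, hu⟩ := exists_max_image univ w ⟨v0, mem_univ _⟩
  have hne1 : (univ.filter fun x => E u x).Nonempty := card_pos.mp (by have := H.out u; omega)
  have hne2 : (univ.filter fun x => E x u).Nonempty := card_pos.mp (by have := H.inn u; omega)
  obtain ⟨a, ha, hamax⟩ := exists_max_image _ w hne1
  obtain ⟨b, hb, hbmax⟩ := exists_max_image _ w hne2
  have := hu v0 (mem_univ _)
  have hM : w u = ((w u).toNat : ℕ) := by omega
  have hmax : ∀ v, w v ≤ ((w u).toNat : ℕ) := fun v => hM ▸ hu v (mem_univ _)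
  rcases le_total (w a) (w b) with h | h
  · exact main_aux H u _ hM hmax a b (mem_filter.mp ha).2 (mem_filter.mp hb).2
      (fun v hv => hamax v (mem_filter.mpr ⟨mem_univ _, hv⟩)) h
  · exact main_aux H.flip u _ hM hmax b a (mem_filter.mp hb).2 (mem_filter.mp ha).2
      (fun v hv => hbmax v (mem_filter.mpr ⟨mem_univ _, hv⟩)) h

end Pool.Agent.H860Z.C4
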