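import Pool.Agent.H860Z.C4B

set_option autoImplicit false
set_option maxHeartbeats 400000
set_option linter.unusedSectionVars false
set_option linter.unusedVariables false

/-! Real weights and genuine 4-cycles. -/

namespace Pool.Agent.H860Z.C4

open Finset

variable {V : Type} [Fintype V] [DecidableEq V]

theorem card_sub (R : Finset V) (p : V → Prop) [DecidablePred p] :
    (univ.filter fun x : R => p x).card = (R.filter p).card := by
  rw [card_filter, card_filter]
  exact sum_coe_sort R (fun x => if p x then 1 else 0)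

theorem W0R (R : Finset V) (E : V → V → Prop) [DecidableRel E] (w : V → ℝ)
    (hout : ∀ v ∈ R, R.card < 2 * (R.filter fun x => E v x).card)
    (hin : ∀ v ∈ R, R.card < 2 * (R.filter fun x => E x v).card)
    (hw : ∀ a ∈ R, ∀ b ∈ R, ∀ c ∈ R, ∀ d ∈ R, E a b → E b c → E c d → E d a →
      w a + w b + w c + w d ≤ 0) : ∑ v ∈ R, w v ≤ 0 := by
  by_contra hcon
  push Not at hcon
  obtain ⟨K, hK⟩ := exists_nat_gt ((R.card : ℝ) / ∑ v ∈ R, w v)
  have H : Hyp (fun a b : R => E a b) (fun v : R => ⌊(K : ℝ) * w v⌋) := by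
    refine ⟨fun v => ?_, fun v => ?_, fun a b c d h1 h2 h3 h4 => ?_⟩
    · rw [card_sub R (fun x => E v x), Fintype.card_coe]; exact hout v v.2
    · rw [card_sub R (fun x => E x v), Fintype.card_coe]; exact hin v v.2
    · have h := hw a a.2 b b.2 c c.2 d d.2 h1 h2 h3 h4
      have a1 := Int.floor_le ((K : ℝ) * w a)
      have a2 := Int.floor_le ((K : ℝ) * w b)
      have a3 := Int.floor_le ((K : ℝ) * w c)
      have a4 := Int.floor_le ((K : ℝ) * w d)
      have a5 : (K : ℝ) * (w a + w b + w c + w d) ≤ 0 :=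
        mul_nonpos_of_nonneg_of_nonpos (Nat.cast_nonneg K) h
      have : ((⌊(K : ℝ) * w a⌋ + ⌊(K : ℝ) * w b⌋ + ⌊(K : ℝ) * w c⌋ + ⌊(K : ℝ) * w d⌋ : ℤ) : ℝ)
          ≤ 0 := by push_cast; linarith
      exact_mod_cast this
  have h1 := W0 H
  rw [sum_coe_sort R (fun v => ⌊(K : ℝ) * w v⌋)] at h1
  have h2 : ∑ v ∈ R, ((⌊(K : ℝ) * w v⌋ : ℤ) : ℝ) ≤ 0 := by exact_mod_cast h1
  have h3 : ∑ v ∈ R, (K : ℝ) * w v ≤ ∑ v ∈ R, (((⌊(K : ℝ) * w v⌋ : ℤ) : ℝ) + 1) :=
    sum_le_sum fun v _ => (Int.lt_floor_add_one _).le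
  rw [sum_add_distrib, ← mul_sum, sum_const, nsmul_eq_mul, mul_one] at h3
  rw [div_lt_iff₀ hcon] at hK
  linarith

/-- `T` is the vertex set of a directed 4-cycle. -/
def IsC4 (E : V → V → Prop) (T : Finset V) : Prop :=
  ∃ a b c d, T = {a, b, c, d} ∧ a ≠ c ∧ b ≠ d ∧ E a b ∧ E b c ∧ E c d ∧ E d a

theorem sum_four {E : V → V → Prop} (hirr : ∀ a, ¬ E a a) {a b c d : V} (h1 : a ≠ c) (h2 : b ≠ d)
    (e1 : E a b) (e2 : E b c) (e3 : E c d) (e4 : E d a) {M : Type} [AddCommMonoid M] (f : V → M) :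
    ∑ v ∈ ({a, b, c, d} : Finset V), f v = f a + f b + f c + f d := by
  have n1 : a ≠ b := fun h => hirr a (h ▸ e1 : E a a)
  have n2 : b ≠ c := fun h => hirr b (h ▸ e2 : E b b)
  have n3 : c ≠ d := fun h => hirr c (h ▸ e3 : E c c)
  have n4 : a ≠ d := fun h => hirr a (by rw [← h] at e4; exact e4)
  rw [sum_insert (by simp [n1, h1, n4]), sum_insert (by simp [n2, h2]), sum_pair n3]
  simp only [add_assoc]

theorem IsC4.card {E : V → V → Prop} (hirr : ∀ a, ¬ E a a) {T : Finset V} (h : IsC4 E T) :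
    T.card = 4 := by
  obtain ⟨a, b, c, d, rfl, h1, h2, e1, e2, e3, e4⟩ := h
  rw [card_eq_sum_ones, sum_four hirr h1 h2 e1 e2 e3 e4]

theorem few_bad (R : Finset V) (B : V → V → Prop) [DecidableRel B] (γ : ℝ) (hγ : 0 < γ)
    (hco : ∀ x ∈ R, ∀ x' ∈ R, x ≠ x' → (R.filter fun y => B x y ∧ B x' y).card ≤ 1) :
    ((R.filter fun x => γ * R.card ≤ (R.filter fun y => B x y).card).card : ℝ) ≤ 2 / γ ^ 2 := by
  set S := R.filter fun x => γ * R.card ≤ (R.filter fun y => B x y).card with hS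
  rcases S.eq_empty_or_nonempty with h0 | h0
  · rw [h0]; simp; positivity
  have hk : (0 : ℝ) < S.card := by exact_mod_cast h0.card_pos
  have hSR : S ⊆ R := filter_subset _ _
  have hkm : (S.card : ℝ) ≤ R.card := by exact_mod_cast card_le_card hSR
  set d : V → ℝ := fun y => ∑ x ∈ S, if B x y then 1 else 0 with hd
  have h1 : (S.card : ℝ) * (γ * R.card) ≤ ∑ y ∈ R, d y := by
    rw [hd, sum_comm, ← nsmul_eq_mul, ← sum_const]
    refine sum_le_sum fun x hx => ?_
    have := (mem_filter.mp hx).2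
    rwa [card_filter, Nat.cast_sum, show (∑ y ∈ R, ((if B x y then 1 else 0 : ℕ) : ℝ))
      = ∑ y ∈ R, if B x y then (1 : ℝ) else 0 from sum_congr rfl fun y _ => by
        split_ifs <;> simp] at this
  have h2 : ∑ y ∈ R, d y ^ 2 ≤ S.card * (R.card + S.card) := by
    have e : ∀ y, d y ^ 2 = ∑ x ∈ S, ∑ x' ∈ S, if B x y ∧ B x' y then (1 : ℝ) else 0 := by
      intro y
      rw [hd, sq, sum_mul_sum]
      refine sum_congr rfl fun x _ => sum_congr rfl fun x' _ => ?_
      by_cases h1 : B x y <;> by_cases h2 : B x' y <;> simp [h1, h2]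
    simp only [e]
    rw [sum_comm, ← nsmul_eq_mul, ← sum_const]
    refine sum_le_sum fun x hx => ?_
    rw [sum_comm]
    have e2 : ∀ x' ∈ S, (∑ y ∈ R, if B x y ∧ B x' y then (1 : ℝ) else 0)
        ≤ (if x = x' then (R.card : ℝ) else 0) + 1 := by
      intro x' hx'
      have e3 : (∑ y ∈ R, if B x y ∧ B x' y then (1 : ℝ) else 0)
          = ((R.filter fun y => B x y ∧ B x' y).card : ℝ) := by simp
      rw [e3]
      split_ifs with h
      · have : ((R.filter fun y => B x y ∧ B x' y).card : ℝ) ≤ R.card := by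
          exact_mod_cast card_filter_le _ _
        linarith
      · have : ((R.filter fun y => B x y ∧ B x' y).card : ℝ) ≤ 1 := by
          exact_mod_cast hco x (hSR hx) x' (hSR hx') h
        linarith
    refine (sum_le_sum e2).trans ?_
    rw [sum_add_distrib, sum_ite_eq, if_pos hx]
    simp
  have h3 := sq_sum_le_card_mul_sum_sq (s := R) (f := d)
  have hm : (0 : ℝ) < R.card := hk.trans_le hkm
  have h4 : ((S.card : ℝ) * (γ * R.card)) ^ 2 ≤ (∑ y ∈ R, d y) ^ 2 :=
    pow_le_pow_left₀ (by positivity) h1 2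
  have h5 : (R.card : ℝ) * ∑ y ∈ R, d y ^ 2 ≤ R.card * (S.card * (R.card + R.card)) :=
    mul_le_mul_of_nonneg_left (h2.trans (by nlinarith)) hm.le
  rw [le_div_iff₀ (by positivity)]
  have h6 : ((S.card : ℝ) * R.card ^ 2) * (S.card * γ ^ 2) ≤ (S.card * R.card ^ 2) * 2 := by
    nlinarith
  exact le_of_mul_le_mul_left h6 (by positivity)

theorem good_cycle (R : Finset V) (E : V → V → Prop) [DecidableRel E] (hirr : ∀ a, ¬ E a a)
    (η ξ : ℝ) (hη : 0 < η) (hξ : 0 < ξ) (h1 : 8 / η ^ 2 < η / 2 * R.card)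
    (h2 : 8 / η ^ 2 * (1 + ξ / 4) < ξ / 4 * R.card)
    (hout : ∀ v ∈ R, (1 / 2 + η) * R.card ≤ (R.filter fun x => E v x).card)
    (hin : ∀ v ∈ R, (1 / 2 + η) * R.card ≤ (R.filter fun x => E x v).card)
    (w : V → ℝ) (hw : ∀ v ∈ R, w v ≤ 1) (hs : 0 ≤ ∑ v ∈ R, w v) :
    ∃ T ⊆ R, IsC4 E T ∧ -ξ ≤ ∑ v ∈ T, w v := by
  classical
  by_contra hcon
  push Not at hcon
  have gen : ∀ a ∈ R, ∀ b ∈ R, ∀ c ∈ R, ∀ d ∈ R, a ≠ c → b ≠ d → E a b → E b c → E c d → E d a →
      w a + w b + w c + w d < -ξ := by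
    intro a ha b hb c hc d hd n1 n2 e1 e2 e3 e4
    have := hcon {a, b, c, d} (by
      intro x hx
      simp only [mem_insert, mem_singleton] at hx
      rcases hx with rfl | rfl | rfl | rfl <;> assumption) ⟨a, b, c, d, rfl, n1, n2, e1, e2, e3, e4⟩
    rwa [sum_four hirr n1 n2 e1 e2 e3 e4] at this
  set B : V → V → Prop := fun x y => E x y ∧ E y x ∧ 0 < w x + w y + ξ / 2 with hB
  have hk := few_bad R B (η / 2) (by positivity) (by
    intro x hx x' hx' hne
    rw [card_le_one]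
    intro y hy y' hy'
    by_contra hyy
    obtain ⟨hy1, ⟨p1, p2, p3⟩, q1, q2, q3⟩ := mem_filter.mp hy
    obtain ⟨hy2, ⟨p1', p2', p3'⟩, q1', q2', q3'⟩ := mem_filter.mp hy'
    have := gen x hx y hy1 x' hx' y' hy2 hne hyy p1 q2 q1' p2'
    linarith)
  set S := R.filter fun x => η / 2 * R.card ≤ (R.filter fun y => B x y).card with hS
  have e8 : 2 / (η / 2) ^ 2 = 8 / η ^ 2 := by field_simp; norm_num
  rw [e8] at hk
  have hSR : S ⊆ R := filter_subset _ _
  have deg : ∀ (F : V → V → Prop) [DecidableRel F], ∀ v ∈ R \ S,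
      (1 / 2 + η) * R.card ≤ (R.filter fun x => F v x).card →
      (R \ S).card < 2 * ((R \ S).filter fun x => F v x ∧ ¬ B v x).card := by
    intro F _ v hv hdeg
    have hv1 := (mem_sdiff.mp hv).1
    have hv2 : ((R.filter fun y => B v y).card : ℝ) < η / 2 * R.card := by
      by_contra h
      exact (mem_sdiff.mp hv).2 (mem_filter.mpr ⟨hv1, not_lt.mp h⟩)
    have hsub : (R.filter fun x => F v x) ⊆
        ((R \ S).filter fun x => F v x ∧ ¬ B v x) ∪ S ∪ R.filter fun y => B v y := by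
      intro x hx
      obtain ⟨hx1, hx2⟩ := mem_filter.mp hx
      by_cases c1 : x ∈ S
      · exact mem_union_left _ (mem_union_right _ c1)
      by_cases c2 : B v x
      · exact mem_union_right _ (mem_filter.mpr ⟨hx1, c2⟩)
      · exact mem_union_left _ (mem_union_left _
          (mem_filter.mpr ⟨mem_sdiff.mpr ⟨hx1, c1⟩, hx2, c2⟩))
    have hc := (card_le_card hsub).trans ((card_union_le _ _).trans
      (Nat.add_le_add_right (card_union_le _ _) _))
    have hc' : ((R.filter fun x => F v x).card : ℝ) ≤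
        (((R \ S).filter fun x => F v x ∧ ¬ B v x).card : ℝ) + S.card
          + (R.filter fun y => B v y).card := by exact_mod_cast hc
    have hc2 : ((R \ S).card : ℝ) ≤ R.card := by exact_mod_cast card_le_card sdiff_subset
    have : ((R \ S).card : ℝ) < 2 * (((R \ S).filter fun x => F v x ∧ ¬ B v x).card : ℝ) := by
      linarith
    exact_mod_cast this
  have Bsym : ∀ x y, B x y → B y x := fun x y h => ⟨h.2.1, h.1, by linarith [h.2.2]⟩
  have main := W0R (R \ S) (fun x y => E x y ∧ ¬ B x y) (fun v => w v + ξ / 4)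
    (fun v hv => deg E v hv (hout v (mem_sdiff.mp hv).1))
    (fun v hv => by
      have := deg (fun x y => E y x) v hv (hin v (mem_sdiff.mp hv).1)
      refine this.trans_le (Nat.mul_le_mul_left _ (card_le_card fun x hx => ?_))
      obtain ⟨p1, p2, p3⟩ := mem_filter.mp hx
      exact mem_filter.mpr ⟨p1, p2, fun h => p3 (Bsym _ _ h)⟩)
    (by
      intro a ha b hb c hc d hd e1 e2 e3 e4
      have dbl : ∀ x y, (E x y ∧ ¬ B x y) → E y x → w x + w y + ξ / 2 ≤ 0 := by
        intro x y h h'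
        by_contra h2
        exact h.2 ⟨h.1, h', not_le.mp h2⟩
      by_cases n1 : a = c
      · subst n1
        have := dbl _ _ e1 e2.1
        have := dbl _ _ e3 e4.1
        linarith
      by_cases n2 : b = d
      · subst n2
        have := dbl _ _ e1 e4.1
        have := dbl _ _ e3 e2.1
        linarith
      have := gen a (mem_sdiff.mp ha).1 b (mem_sdiff.mp hb).1 c (mem_sdiff.mp hc).1
        d (mem_sdiff.mp hd).1 n1 n2 e1.1 e2.1 e3.1 e4.1
      linarith)
  have s1 := sum_sdiff hSR (f := fun v => w v + ξ / 4)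
  have s2 : ∑ v ∈ S, (w v + ξ / 4) ≤ S.card * (1 + ξ / 4) := by
    rw [← nsmul_eq_mul, ← sum_const]
    exact sum_le_sum fun v hv => by linarith [hw v (hSR hv)]
  have s3 : ∑ v ∈ R, (w v + ξ / 4) = ∑ v ∈ R, w v + R.card * (ξ / 4) := by
    rw [sum_add_distrib, sum_const, nsmul_eq_mul]
  have s4 : (S.card : ℝ) * (1 + ξ / 4) ≤ 8 / η ^ 2 * (1 + ξ / 4) :=
    mul_le_mul_of_nonneg_right hk (by positivity)
  linarith

end Pool.Agent.H860Z.C4
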