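import Pool.Agent.H860Z.C4C

set_option autoImplicit false
set_option maxHeartbeats 400000
set_option linter.unusedSectionVars false
set_option linter.unusedVariables false

/-! Almost perfect tilings by a greedy process controlled by an exponential potential. -/

namespace Pool.Agent.H860Z.C4

open Finset

variable {V : Type} [Fintype V] [DecidableEq V]

/-- `X` is a disjoint union of directed 4-cycles. -/
inductive Til (E : V → V → Prop) : Finset V → Prop
  | empty : Til E ∅
  | add (T X : Finset V) : IsC4 E T → Disjoint T X → Til E X → Til E (T ∪ X)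

theorem Til.union {E : V → V → Prop} {X Y : Finset V} (hX : Til E X) (hY : Til E Y)
    (h : Disjoint X Y) : Til E (X ∪ Y) := by
  induction hX with
  | empty => simpa using hY
  | add T X h1 h2 _ ih =>
    rw [union_assoc]
    rw [disjoint_union_left] at h
    exact Til.add _ _ h1 (disjoint_union_right.mpr ⟨h2, h.1⟩) (ih h.2)

theorem Til.single {E : V → V → Prop} {T : Finset V} (h : IsC4 E T) : Til E T := by
  simpa using Til.add T ∅ h (disjoint_empty_right _) Til.empty

theorem Til.dvd {E : V → V → Prop} (hirr : ∀ a, ¬ E a a) {X : Finset V} (hX : Til E X) :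
    4 ∣ X.card := by
  induction hX with
  | empty => simp
  | add T X h1 h2 _ ih => rw [card_union_of_disjoint h2, h1.card hirr]; omega

/-- density of `P i` in `R`. -/
noncomputable def rat {ι : Type} (P : ι → V → Prop) [∀ i, DecidablePred (P i)] (i : ι)
    (R : Finset V) : ℝ := ((R.filter (P i)).card : ℝ) / R.card

/-- the potential. -/
noncomputable def pot {ι : Type} (I : Finset ι) (P : ι → V → Prop) [∀ i, DecidablePred (P i)]
    (θ : ℝ) (R : Finset V) : ℝ := ∑ i ∈ I, Real.exp (-θ * rat P i R)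

theorem frac_id (a t m m' : ℝ) (hm : 0 < m) (hm' : 0 < m') (h : m' = m - 4) :
    (a - t) / m' = a / m + (4 * (a / m) - t) / m' := by
  have : m = m' + 4 := by linarith
  subst this
  field_simp
  ring

theorem one_step {ι : Type} (I : Finset ι) (hI : I.Nonempty) (P : ι → V → Prop)
    [∀ i, DecidablePred (P i)] (θ μ ξ : ℝ) (hθ : 0 ≤ θ) (hμ : 0 < μ) (hξ : 0 ≤ ξ) (hθμ : 4 * θ ≤ μ)
    (R : Finset V) (hR : μ + 4 ≤ R.card) (Q : Finset V → Prop) (hQ : ∀ T, Q T → T.card = 4)
    (hgood : ∀ w : V → ℝ, (∀ v ∈ R, w v ≤ 1) → 0 ≤ ∑ v ∈ R, w v →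
      ∃ T ⊆ R, Q T ∧ -ξ ≤ ∑ v ∈ T, w v) :
    ∃ T ⊆ R, Q T ∧ pot I P θ (R \ T) ≤ pot I P θ R * Real.exp (θ * ξ / μ + 16 * θ ^ 2 / μ ^ 2) := by
  set e : ι → ℝ := fun i => Real.exp (-θ * rat P i R) with he
  have epos : ∀ i, 0 < e i := fun i => Real.exp_pos _
  set Φ := pot I P θ R with hΦ
  have hΦe : Φ = ∑ i ∈ I, e i := rfl
  have Φpos : 0 < Φ := sum_pos (fun i _ => epos i) hI
  have hm : (0 : ℝ) < R.card := by linarith
  have r0 : ∀ i, 0 ≤ rat P i R := fun i => by unfold rat; positivity
  have r1 : ∀ i, rat P i R ≤ 1 := fun i => by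
    unfold rat
    rw [div_le_one hm]
    exact_mod_cast card_filter_le _ _
  have hsum : ∀ (T : Finset V), ∑ v ∈ T, (∑ i ∈ I, e i * (rat P i R - if P i v then 1 else 0)) / Φ
      = (∑ i ∈ I, e i * (T.card * rat P i R - (T.filter (P i)).card)) / Φ := by
    intro T
    rw [← sum_div, sum_comm]
    congr 1
    refine sum_congr rfl fun i _ => ?_
    rw [← mul_sum, sum_sub_distrib, sum_const, nsmul_eq_mul]
    simp
  obtain ⟨T, hTR, hT, hw⟩ := hgood
    (fun v => (∑ i ∈ I, e i * (rat P i R - if P i v then 1 else 0)) / Φ) (by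
      intro v _
      rw [div_le_one Φpos, hΦe]
      refine sum_le_sum fun i _ => ?_
      have := epos i
      have := r1 i
      split_ifs <;> nlinarith) (by
      rw [hsum]
      apply le_of_eq
      symm
      rw [div_eq_zero_iff]
      left
      refine sum_eq_zero fun i _ => ?_
      unfold rat
      rw [mul_div_cancel₀ _ hm.ne', sub_self, mul_zero])
  refine ⟨T, hTR, hT, ?_⟩
  have hT4 := hQ T hT
  rw [hsum, hT4, le_div_iff₀ Φpos] at hw
  push_cast at hw
  have hc : ((R \ T).card : ℝ) = R.card - 4 := by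
    have := card_sdiff_add_card_eq_card hTR
    rw [hT4] at this
    have : ((R \ T).card : ℝ) + 4 = R.card := by exact_mod_cast this
    linarith
  set m' : ℝ := R.card - 4 with hm'
  have hm'μ : μ ≤ m' := by linarith
  have hm'0 : 0 < m' := by linarith
  have hr : ∀ i, rat P i (R \ T) = rat P i R + (4 * rat P i R - (T.filter (P i)).card) / m' := by
    intro i
    have h1 : ((R \ T).filter (P i)).card + (T.filter (P i)).card = (R.filter (P i)).card := by
      rw [← card_union_of_disjoint (disjoint_filter_filter sdiff_disjoint), ← filter_union,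
        sdiff_union_of_subset hTR]
    have h2 : (((R \ T).filter (P i)).card : ℝ) = (R.filter (P i)).card - (T.filter (P i)).card := by
      have : (((R \ T).filter (P i)).card : ℝ) + (T.filter (P i)).card = (R.filter (P i)).card := by
        exact_mod_cast h1
      linarith
    unfold rat
    rw [hc, h2]
    exact frac_id _ _ _ _ hm hm'0 hm'
  have hb : ∀ i ∈ I, Real.exp (-θ * rat P i (R \ T)) ≤
      e i * (1 + 16 * θ ^ 2 / μ ^ 2) - θ / m' * (e i * (4 * rat P i R - (T.filter (P i)).card)) := by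
    intro i _
    set x : ℝ := 4 * rat P i R - (T.filter (P i)).card with hx
    have t0 : (0 : ℝ) ≤ (T.filter (P i)).card := Nat.cast_nonneg _
    have t1 : ((T.filter (P i)).card : ℝ) ≤ 4 := by
      have := card_filter_le T (P i)
      rw [hT4] at this
      exact_mod_cast this
    have hx4 : |x| ≤ 4 := by
      rw [abs_le]; constructor <;> linarith [r0 i, r1 i]
    have hy : |(-θ * (x / m'))| ≤ 4 * θ / μ := by
      rw [abs_mul, abs_neg, abs_of_nonneg hθ, abs_div, abs_of_pos hm'0]
      calc θ * (|x| / m') ≤ θ * (4 / μ) :=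
            mul_le_mul_of_nonneg_left (div_le_div₀ (by norm_num) hx4 hμ hm'μ) hθ
        _ = 4 * θ / μ := by ring
    have hy1 : |(-θ * (x / m'))| ≤ 1 := hy.trans ((div_le_one hμ).mpr hθμ)
    have h3 := (abs_le.mp (Real.abs_exp_sub_one_sub_id_le hy1)).2
    have h4 : (-θ * (x / m')) ^ 2 ≤ 16 * θ ^ 2 / μ ^ 2 := by
      rw [← sq_abs]
      calc |(-θ * (x / m'))| ^ 2 ≤ (4 * θ / μ) ^ 2 := pow_le_pow_left₀ (abs_nonneg _) hy 2
        _ = 16 * θ ^ 2 / μ ^ 2 := by ring
    rw [hr i, mul_add, Real.exp_add]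
    have h5 : Real.exp (-θ * (x / m')) ≤ 1 + 16 * θ ^ 2 / μ ^ 2 - θ / m' * x := by
      have : -θ * (x / m') = -(θ / m' * x) := by ring
      linarith
    calc e i * Real.exp (-θ * (x / m')) ≤ e i * (1 + 16 * θ ^ 2 / μ ^ 2 - θ / m' * x) :=
          mul_le_mul_of_nonneg_left h5 (epos i).le
      _ = _ := by ring
  have h6 := sum_le_sum hb
  rw [sum_sub_distrib, ← sum_mul, ← mul_sum, ← hΦe] at h6
  have h7 : θ / m' ≤ θ / μ := div_le_div_of_nonneg_left hθ hμ hm'μ
  have h8 : 0 ≤ θ / m' := by positivity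
  have h9 := mul_le_mul_of_nonneg_left hw h8
  have h10 : θ / m' * (ξ * Φ) ≤ θ / μ * (ξ * Φ) :=
    mul_le_mul_of_nonneg_right h7 (by positivity)
  have h11 := Real.add_one_le_exp (θ * ξ / μ + 16 * θ ^ 2 / μ ^ 2)
  calc pot I P θ (R \ T) ≤ Φ * (θ * ξ / μ + 16 * θ ^ 2 / μ ^ 2 + 1) := by
        unfold pot
        have : θ / μ * (ξ * Φ) = Φ * (θ * ξ / μ) := by ring
        nlinarith
    _ ≤ _ := mul_le_mul_of_nonneg_left h11 Φpos.le

theorem process (E : V → V → Prop) [DecidableRel E] (hirr : ∀ a, ¬ E a a) (W : Finset V)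
    (η ξ θ μ : ℝ) (hη : 0 < η) (hξ : 0 < ξ) (hθ : 0 < θ) (hμ : 0 < μ) (hθμ : 4 * θ ≤ μ)
    (h1 : 8 / (η / 2) ^ 2 < η / 2 / 2 * μ) (h2 : 8 / (η / 2) ^ 2 * (1 + ξ / 4) < ξ / 4 * μ)
    (h3 : 2 * W.card * Real.exp (W.card * (θ * ξ / μ + 16 * θ ^ 2 / μ ^ 2))
      ≤ Real.exp (θ * (η / 2)))
    (hout : ∀ v ∈ W, (1 / 2 + η) * W.card ≤ (W.filter fun x => E v x).card)
    (hin : ∀ v ∈ W, (1 / 2 + η) * W.card ≤ (W.filter fun x => E x v).card)
    (k : ℕ) (hk : k = 0 ∨ μ + 4 * k ≤ W.card) :
    ∃ R ⊆ W, R.card + 4 * k = W.card ∧ Til E (W \ R) := by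
  rcases hk with rfl | hk
  · exact ⟨W, Subset.rfl, rfl, by simpa using Til.empty⟩
  set I := W ×ˢ (univ : Finset Bool) with hI
  set P : V × Bool → V → Prop := fun i x => if i.2 then E i.1 x else E x i.1 with hP
  set c := θ * ξ / μ + 16 * θ ^ 2 / μ ^ 2 with hc
  have c0 : 0 ≤ c := by positivity
  have hW : (0 : ℝ) < W.card := by
    have : (0 : ℝ) ≤ 4 * k := by positivity
    linarith
  have hWne : W.Nonempty := card_pos.mp (by exact_mod_cast hW)
  have hIne : I.Nonempty := hWne.product univ_nonempty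
  have start : pot I P θ W ≤ 2 * W.card * Real.exp (-θ * (1 / 2 + η)) := by
    have : (2 * W.card : ℝ) = I.card := by rw [hI, card_product]; simp; ring
    rw [this, ← nsmul_eq_mul, ← sum_const]
    refine sum_le_sum fun i hi => Real.exp_le_exp.mpr ?_
    have hi1 : i.1 ∈ W := (mem_product.mp hi).1
    have : 1 / 2 + η ≤ rat P i W := by
      unfold rat
      rw [le_div_iff₀ hW]
      rcases i with ⟨v, _ | _⟩
      · simpa [hP] using hin v hi1
      · simpa [hP] using hout v hi1
    nlinarith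
  have main : ∀ j : ℕ, μ + 4 * j ≤ W.card → ∃ R ⊆ W, R.card + 4 * j = W.card ∧ Til E (W \ R) ∧
      pot I P θ R ≤ pot I P θ W * Real.exp (j * c) := by
    intro j
    induction j with
    | zero => intro _; exact ⟨W, Subset.rfl, rfl, by simpa using Til.empty, by simp⟩
    | succ j ih =>
      intro hj
      push_cast at hj
      obtain ⟨R, hRW, hcard, hT, hpot⟩ := ih (by linarith)
      have hcard' : (R.card : ℝ) + 4 * j = W.card := by exact_mod_cast hcard
      have hR : μ + 4 ≤ R.card := by linarith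
      have hR0 : (0 : ℝ) < R.card := by linarith
      have hrat : ∀ i ∈ I, (1 / 2 + η / 2) * R.card ≤ (R.filter (P i)).card := by
        intro i hi
        have a1 : Real.exp (-θ * rat P i R) ≤ pot I P θ R :=
          single_le_sum (f := fun i => Real.exp (-θ * rat P i R))
            (fun i _ => (Real.exp_pos _).le) hi
        have a2 : Real.exp (j * c) ≤ Real.exp (W.card * c) :=
          Real.exp_le_exp.mpr (mul_le_mul_of_nonneg_right (by
            have : (0 : ℝ) ≤ j := Nat.cast_nonneg _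
            linarith) c0)
        have a3 : pot I P θ W * Real.exp (j * c) ≤
            2 * W.card * Real.exp (-θ * (1 / 2 + η)) * Real.exp (W.card * c) :=
          mul_le_mul start a2 (Real.exp_pos _).le (by positivity)
        have a4 : 2 * W.card * Real.exp (-θ * (1 / 2 + η)) * Real.exp (W.card * c) ≤
            Real.exp (θ * (η / 2)) * Real.exp (-θ * (1 / 2 + η)) := by
          have := mul_le_mul_of_nonneg_right h3 (Real.exp_pos (-θ * (1 / 2 + η))).le
          linarith
        rw [← Real.exp_add] at a4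
        have a5 := Real.exp_le_exp.mp (a1.trans (hpot.trans (a3.trans a4)))
        have a6 : 1 / 2 + η / 2 ≤ rat P i R := by nlinarith
        unfold rat at a6
        rwa [le_div_iff₀ hR0] at a6
      obtain ⟨T, hTR, hT4, hp⟩ := one_step I hIne P θ μ ξ hθ.le hμ hξ.le hθμ R hR (IsC4 E)
        (fun T h => h.card hirr) (fun w hw hs => good_cycle R E hirr (η / 2) ξ (by positivity) hξ
          (h1.trans_le (mul_le_mul_of_nonneg_left (by linarith) (by positivity)))
          (h2.trans_le (mul_le_mul_of_nonneg_left (by linarith) (by positivity)))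
          (fun v hv => by
            simpa [hP] using hrat (v, true) (mem_product.mpr ⟨hRW hv, mem_univ _⟩))
          (fun v hv => by
            simpa [hP] using hrat (v, false) (mem_product.mpr ⟨hRW hv, mem_univ _⟩)) w hw hs)
      refine ⟨R \ T, sdiff_subset.trans hRW, ?_, ?_, ?_⟩
      · have := card_sdiff_add_card_eq_card hTR
        rw [hT4.card hirr] at this
        omega
      · have : W \ (R \ T) = T ∪ (W \ R) := by
          ext x
          have := @hTR x
          have := @hRW x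
          simp only [mem_sdiff, mem_union]
          tauto
        rw [this]
        exact Til.add _ _ hT4 (disjoint_of_subset_left hTR disjoint_sdiff) hT
      · calc pot I P θ (R \ T) ≤ pot I P θ R * Real.exp c := hp
          _ ≤ pot I P θ W * Real.exp (j * c) * Real.exp c :=
            mul_le_mul_of_nonneg_right hpot (Real.exp_pos _).le
          _ = _ := by rw [mul_assoc, ← Real.exp_add]; push_cast; ring_nf
  obtain ⟨R, a, b, c, -⟩ := main k hk
  exact ⟨R, a, b, c⟩

theorem ev_lt (a b : ℝ) (hb : 0 < b) : ∃ N0 : ℕ, ∀ N : ℕ, N0 ≤ N → a < b * N := by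
  obtain ⟨N0, h⟩ := exists_nat_gt (a / b)
  refine ⟨N0, fun N hN => ?_⟩
  have : (N0 : ℝ) ≤ N := by exact_mod_cast hN
  rw [div_lt_iff₀ hb] at h
  nlinarith

theorem almost (η ε : ℝ) (hη : 0 < η) (hε : 0 < ε) : ∃ N0 : ℕ, ∀ (V : Type) [Fintype V]
    [DecidableEq V] (E : V → V → Prop) [DecidableRel E] (hirr : ∀ a, ¬ E a a) (W : Finset V),
    N0 ≤ W.card → (∀ v ∈ W, (1 / 2 + η) * W.card ≤ (W.filter fun x => E v x).card) →
    (∀ v ∈ W, (1 / 2 + η) * W.card ≤ (W.filter fun x => E x v).card) →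
    ∃ R ⊆ W, (R.card : ℝ) ≤ ε * W.card + 4 ∧ Til E (W \ R) := by
  set ξ := ε * η / 8 with hξ
  set δ := min (ε ^ 2 * η / 128) (ε / 4) with hδ
  have hδ0 : 0 < δ := lt_min (by positivity) (by positivity)
  have hξ0 : 0 < ξ := by positivity
  obtain ⟨N1, H1⟩ := ev_lt (8 / (η / 2) ^ 2) (η / 2 / 2 * ε) (by positivity)
  obtain ⟨N2, H2⟩ := ev_lt (8 / (η / 2) ^ 2 * (1 + ξ / 4)) (ξ / 4 * ε) (by positivity)
  obtain ⟨N3, H3⟩ := ev_lt 4 ((δ * η / 4) ^ 2) (by positivity)
  refine ⟨max (max N1 N2) (max N3 1), fun V _ _ E _ hirr W hW hout hin => ?_⟩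
  have g1 := H1 W.card (by omega)
  have g2 := H2 W.card (by omega)
  have g3 := H3 W.card (by omega)
  have hN : (0 : ℝ) < W.card := by exact_mod_cast (by omega : 0 < W.card)
  set N : ℝ := (W.card : ℝ) with hNdef
  obtain ⟨R, hR, hc, hT⟩ := process E hirr W η ξ (δ * N) (ε * N) hη hξ0 (by positivity)
    (by positivity) (by nlinarith [min_le_right (ε ^ 2 * η / 128) (ε / 4)]) (by linarith)
    (by linarith) (by
      have e1 : δ * N * ξ / (ε * N) + 16 * (δ * N) ^ 2 / (ε * N) ^ 2
          = δ * (η / 8) + δ * (16 * δ / ε ^ 2) := by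
        rw [hξ]; field_simp
      have e2 : 16 * δ / ε ^ 2 ≤ η / 8 := by
        rw [div_le_iff₀ (by positivity)]
        linarith [min_le_left (ε ^ 2 * η / 128) (ε / 4)]
      have e3 : N * (δ * (η / 8) + δ * (16 * δ / ε ^ 2)) ≤ δ * η / 4 * N := by
        have := mul_le_mul_of_nonneg_left e2 hδ0.le
        nlinarith
      have e4 : 2 * N ≤ Real.exp (δ * η / 4 * N) := by
        have := Real.quadratic_le_exp_of_nonneg (x := δ * η / 4 * N) (by positivity)
        have h5 : 0 ≤ δ * η / 4 * N := by positivity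
        nlinarith
      rw [← hNdef, e1]
      calc 2 * N * Real.exp (N * (δ * (η / 8) + δ * (16 * δ / ε ^ 2)))
          ≤ Real.exp (δ * η / 4 * N) * Real.exp (δ * η / 4 * N) :=
            mul_le_mul e4 (Real.exp_le_exp.mpr e3) (Real.exp_pos _).le (Real.exp_pos _).le
        _ = _ := by rw [← Real.exp_add]; ring_nf) hout hin ⌊(N - ε * N) / 4⌋₊ (by
      rcases le_total 0 ((N - ε * N) / 4) with h | h
      · right
        have := Nat.floor_le h
        linarith
      · left
        exact Nat.floor_of_nonpos h)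
  refine ⟨R, hR, ?_, hT⟩
  have hc' : (R.card : ℝ) + 4 * (⌊(N - ε * N) / 4⌋₊ : ℝ) = N := by rw [hNdef]; exact_mod_cast hc
  have := Nat.lt_floor_add_one ((N - ε * N) / 4)
  linarith

end Pool.Agent.H860Z.C4
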