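import Pool.Agent.H860Z.C4D

set_option autoImplicit false
set_option maxHeartbeats 400000
set_option linter.unusedSectionVars false
set_option linter.unusedVariables false

/-! Absorbers. -/

namespace Pool.Agent.H860Z.C4

open Finset Classical

variable {V : Type} [Fintype V] [DecidableEq V]

theorem common (η : ℝ) (P Q F : Finset V) (hP : (1 / 2 + η) * Fintype.card V ≤ P.card)
    (hQ : (1 / 2 + η) * Fintype.card V ≤ Q.card) (hF : (F.card : ℝ) ≤ η * Fintype.card V) :
    η * Fintype.card V ≤ (((P ∩ Q) \ F).card : ℝ) := by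
  have e1 := card_union_add_card_inter P Q
  have e2 : (P ∪ Q).card ≤ Fintype.card V := card_le_univ _
  have e3 := le_card_sdiff F (P ∩ Q)
  have e4 : P.card + Q.card ≤ Fintype.card V + ((P ∩ Q) \ F).card + F.card := by omega
  have e5 : (P.card : ℝ) + Q.card ≤ Fintype.card V + ((P ∩ Q) \ F).card + F.card := by
    exact_mod_cast e4
  linarith

theorem average {ι : Type} (J : Finset ι) (μ : ι → ℝ) (hμ : ∀ q, 0 ≤ μ q) (η : ℝ) (hη : 0 ≤ η)
    (Base : Finset V) (hB : Base.Nonempty) (p : ι → V → Prop)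
    (h : ∀ q, η * Fintype.card V ≤ ((Base.filter (p q)).card : ℝ)) :
    ∃ x ∈ Base, η * ∑ q ∈ J, μ q ≤ ∑ q ∈ J.filter (fun q => p q x), μ q := by
  apply exists_le_of_sum_le hB
  simp only [sum_filter]
  rw [sum_comm, sum_const, nsmul_eq_mul, mul_sum, mul_sum]
  refine sum_le_sum fun q _ => ?_
  rw [← sum_filter, sum_const, nsmul_eq_mul]
  have h1 : (Base.card : ℝ) ≤ Fintype.card V := by exact_mod_cast card_le_univ Base
  have h2 := h q
  have h3 := hμ q
  have h4 : η * Base.card ≤ ((Base.filter (p q)).card : ℝ) :=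
    (mul_le_mul_of_nonneg_left h1 hη).trans h2
  nlinarith

/-- `v` together with `Y` spans a 4-cycle. -/
def Sw (E : V → V → Prop) (Y : Finset V) (v : V) : Prop := v ∉ Y → IsC4 E (insert v Y)

section
variable {E : V → V → Prop} {η : ℝ} (hη : 0 < η)
  (hout : ∀ v, (1 / 2 + η) * Fintype.card V ≤ ((univ.filter fun x => E v x).card : ℝ))
  (hin : ∀ v, (1 / 2 + η) * Fintype.card V ≤ ((univ.filter fun x => E x v).card : ℝ))
include hη hout hin

theorem swap {ι : Type} (J : Finset ι) (μ : ι → ℝ) (hμ : ∀ q, 0 ≤ μ q) (π : ι → V) (a : V)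
    (F : Finset V) (ha : a ∈ F) (hF : (F.card : ℝ) + 1 ≤ η * Fintype.card V) :
    ∃ Y : Finset V, Disjoint Y F ∧ Y.card ≤ 3 ∧ IsC4 E (insert a Y) ∧
      η ^ 2 * ∑ q ∈ J, μ q ≤ ∑ q ∈ J.filter (fun q => Sw E Y (π q)), μ q := by
  have hn : 0 < η * Fintype.card V := by
    have : (0 : ℝ) ≤ F.card := Nat.cast_nonneg _
    linarith
  have ne : ∀ S : Finset V, η * Fintype.card V ≤ (S.card : ℝ) → S.Nonempty := fun S h =>
    card_pos.mp (by exact_mod_cast hn.trans_le h)
  obtain ⟨x, hx, H1⟩ := average J μ hμ η hη.le ((univ.filter fun x => E a x) \ F)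
    (ne _ (by simpa using common η _ _ F (hout a) (hout a) (by linarith)))
    (fun q x => E (π q) x) (fun q => by
      refine (common η _ _ F (hout a) (hout (π q)) (by linarith)).trans (le_of_eq ?_)
      congr 2
      ext v
      simp only [mem_sdiff, mem_inter, mem_filter, mem_univ, true_and]
      tauto)
  have hF2 : ((insert x F).card : ℝ) ≤ η * Fintype.card V := by
    have : ((insert x F).card : ℝ) ≤ F.card + 1 := by exact_mod_cast card_insert_le x F
    linarith
  obtain ⟨y, hy, H2⟩ := average (J.filter fun q => E (π q) x) μ hμ η hη.le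
    ((univ.filter fun y => E y a) \ insert x F)
    (ne _ (by simpa using common η _ _ _ (hin a) (hin a) hF2))
    (fun q y => E y (π q)) (fun q => by
      refine (common η _ _ _ (hin a) (hin (π q)) hF2).trans (le_of_eq ?_)
      congr 2
      ext v
      simp only [mem_sdiff, mem_inter, mem_filter, mem_univ, true_and]
      tauto)
  obtain ⟨z, hz⟩ := ne _ (common η _ _ F (hout x) (hin y) (by linarith))
  simp only [mem_sdiff, mem_inter, mem_filter, mem_univ, true_and, mem_insert, not_or] at hx hy hz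
  refine ⟨{x, z, y}, ?_, card_le_three, ⟨a, x, z, y, rfl, fun h => hz.2 (h ▸ ha),
    fun h => hy.2.1 h.symm, hx.1, hz.1.1, hz.1.2, hy.1⟩, ?_⟩
  · rw [disjoint_left]
    intro v hv
    simp only [mem_insert, mem_singleton] at hv
    rcases hv with rfl | rfl | rfl
    exacts [hx.2, hz.2, hy.2.2]
  · calc η ^ 2 * ∑ q ∈ J, μ q = η * (η * ∑ q ∈ J, μ q) := by ring
      _ ≤ η * ∑ q ∈ J.filter (fun q => E (π q) x), μ q := mul_le_mul_of_nonneg_left H1 hη.le
      _ ≤ _ := H2
      _ ≤ _ := by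
        refine sum_le_sum_of_subset_of_nonneg (fun q hq => ?_) fun q _ _ => hμ q
        simp only [mem_filter] at hq ⊢
        refine ⟨hq.1.1, fun hv => ⟨π q, x, z, y, rfl, fun h => hv (by simp [h]),
          fun h => hy.2.1 h.symm, hq.1.2, hz.1.1, hz.1.2, hq.2⟩⟩

end

/-- the set of the four entries. -/
def quad (q : V × V × V × V) : Finset V := {q.1, q.2.1, q.2.2.1, q.2.2.2}

/-- `X` absorbs the quadruple `q`. -/
def Abs (E : V → V → Prop) (X : Finset V) (q : V × V × V × V) : Prop :=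
  q.1 ≠ q.2.1 → q.1 ≠ q.2.2.1 → q.1 ≠ q.2.2.2 → q.2.1 ≠ q.2.2.1 → q.2.1 ≠ q.2.2.2 →
    q.2.2.1 ≠ q.2.2.2 → Disjoint X (quad q) → Til E (X ∪ quad q)

theorem til_four {E : V → V → Prop} {Z Y1 Y2 Y3 Y4 : Finset V} {a b c d : V} (hZ : Til E Z)
    (n1 : a ≠ b) (n2 : a ≠ c) (n3 : a ≠ d) (n4 : b ≠ c) (n5 : b ≠ d) (n6 : c ≠ d)
    (d1 : Disjoint Y1 Z) (d2 : Disjoint Y2 (Z ∪ Y1)) (d3 : Disjoint Y3 (Z ∪ Y1 ∪ Y2))
    (d4 : Disjoint Y4 (Z ∪ Y1 ∪ Y2 ∪ Y3))
    (d5 : Disjoint (Z ∪ Y1 ∪ Y2 ∪ Y3 ∪ Y4) {a, b, c, d})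
    (c1 : IsC4 E (insert a Y1)) (c2 : IsC4 E (insert b Y2)) (c3 : IsC4 E (insert c Y3))
    (c4 : IsC4 E (insert d Y4)) : Til E (Z ∪ Y1 ∪ Y2 ∪ Y3 ∪ Y4 ∪ {a, b, c, d}) := by
  simp only [disjoint_union_right, disjoint_insert_right,
    disjoint_singleton_right, mem_union, not_or] at d2 d3 d4 d5
  obtain ⟨⟨⟨⟨⟨a0, a1⟩, a2⟩, a3⟩, a4⟩, ⟨⟨⟨⟨b0, b1⟩, b2⟩, b3⟩, b4⟩, ⟨⟨⟨⟨c0, c1'⟩, c2'⟩, c3'⟩, c4'⟩,
    ⟨⟨⟨e0, e1⟩, e2⟩, e3⟩, e4⟩ := d5
  obtain ⟨d20, d21⟩ := d2
  obtain ⟨⟨d30, d31⟩, d32⟩ := d3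
  obtain ⟨⟨⟨d40, d41⟩, d42⟩, d43⟩ := d4
  have t1 := Til.add _ _ c1 (by
    simp only [disjoint_insert_left]; exact ⟨a0, d1⟩) hZ
  have t2 := Til.add _ _ c2 (by
    simp [disjoint_union_right, disjoint_insert_left, disjoint_insert_right, *, n1.symm]) t1
  have t3 := Til.add _ _ c3 (by
    simp [disjoint_union_right, disjoint_insert_left, disjoint_insert_right, *, n2.symm,
      n4.symm]) t2
  have t4 := Til.add _ _ c4 (by
    simp [disjoint_union_right, disjoint_insert_left, disjoint_insert_right, *, n3.symm,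
      n5.symm, n6.symm]) t3
  convert t4 using 1
  ext v
  simp only [mem_union, mem_insert, mem_singleton]
  tauto

section
variable {E : V → V → Prop} {η : ℝ} (hη : 0 < η) (hirr : ∀ a, ¬ E a a)
  (hout : ∀ v, (1 / 2 + η) * Fintype.card V ≤ ((univ.filter fun x => E v x).card : ℝ))
  (hin : ∀ v, (1 / 2 + η) * Fintype.card V ≤ ((univ.filter fun x => E x v).card : ℝ))
include hη hirr hout hin

theorem gadget (μ : V × V × V × V → ℝ) (hμ : ∀ q, 0 ≤ μ q) (F : Finset V)
    (hF : (F.card : ℝ) + 16 ≤ η * Fintype.card V) :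
    ∃ X : Finset V, Disjoint X F ∧ X.card ≤ 16 ∧ X.Nonempty ∧ Til E X ∧
      η ^ 8 * ∑ q, μ q ≤ ∑ q ∈ univ.filter (fun q => Abs E X q), μ q := by
  have hn : 0 < η * Fintype.card V := by
    have : (0 : ℝ) ≤ F.card := Nat.cast_nonneg _
    linarith
  have hV : Nonempty V := by
    rw [← Fintype.card_pos_iff]
    by_contra h
    have : Fintype.card V = 0 := by omega
    rw [this] at hn; simp at hn
  obtain ⟨v0⟩ := hV
  obtain ⟨a0, ha0⟩ : (((univ.filter fun x => E v0 x) ∩ (univ.filter fun x => E v0 x))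
      \ F).Nonempty :=
    card_pos.mp (by exact_mod_cast hn.trans_le (common η _ _ F (hout v0) (hout v0) (by linarith)))
  have ha0' := (mem_sdiff.mp ha0).2
  obtain ⟨Y0, p1, p2, p3, -⟩ := swap hη hout hin (∅ : Finset Unit) (fun _ => 0) (fun _ => le_rfl)
    (fun _ => a0) a0 (insert a0 F) (mem_insert_self _ _) (by
      rw [card_insert_of_notMem ha0']; push_cast; linarith)
  have hTF : Disjoint (insert a0 Y0) F := by
    rw [disjoint_insert_left]
    exact ⟨ha0', disjoint_of_subset_right (subset_insert _ _) p1⟩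
  have hT4 := p3.card hirr
  have hTc := p3
  obtain ⟨a, b, c, d, hT, n2, n5, e1, e2, e3, e4⟩ := p3
  rw [hT] at hTF hT4 hTc
  set T : Finset V := {a, b, c, d} with hTdef
  have cu : ∀ A B : Finset V, ((A ∪ B).card : ℝ) ≤ A.card + B.card := fun A B => by
    exact_mod_cast card_union_le A B
  have k0 : ((T ∪ F).card : ℝ) ≤ F.card + 4 := by
    have := cu T F; rw [hT4] at this; push_cast at this; linarith
  obtain ⟨Y1, d1, s1, c1, H1⟩ := swap hη hout hin univ μ hμ (fun q => q.1) a (T ∪ F)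
    (by simp [hTdef]) (by linarith)
  have s1' : (Y1.card : ℝ) ≤ 3 := by exact_mod_cast s1
  have k1 := cu (T ∪ F) Y1
  obtain ⟨Y2, d2, s2, c2, H2⟩ := swap hη hout hin (univ.filter fun q => Sw E Y1 q.1) μ hμ
    (fun q => q.2.1) b (T ∪ F ∪ Y1) (by simp [hTdef]) (by linarith)
  have s2' : (Y2.card : ℝ) ≤ 3 := by exact_mod_cast s2
  have k2 := cu (T ∪ F ∪ Y1) Y2
  obtain ⟨Y3, d3, s3, c3, H3⟩ := swap hη hout hin
    ((univ.filter fun q => Sw E Y1 q.1).filter fun q => Sw E Y2 q.2.1) μ hμ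
    (fun q => q.2.2.1) c (T ∪ F ∪ Y1 ∪ Y2) (by simp [hTdef]) (by linarith)
  have s3' : (Y3.card : ℝ) ≤ 3 := by exact_mod_cast s3
  have k3 := cu (T ∪ F ∪ Y1 ∪ Y2) Y3
  obtain ⟨Y4, d4, s4, c4, H4⟩ := swap hη hout hin
    (((univ.filter fun q => Sw E Y1 q.1).filter fun q => Sw E Y2 q.2.1).filter
      fun q => Sw E Y3 q.2.2.1) μ hμ
    (fun q => q.2.2.2) d (T ∪ F ∪ Y1 ∪ Y2 ∪ Y3) (by simp [hTdef]) (by linarith)
  have n1 : a ≠ b := fun h => hirr a (h ▸ e1 : E a a)
  have n4 : b ≠ c := fun h => hirr b (h ▸ e2 : E b b)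
  have n6 : c ≠ d := fun h => hirr c (h ▸ e3 : E c c)
  have n3 : a ≠ d := fun h => hirr a (by rw [← h] at e4; exact e4)
  simp only [disjoint_union_right] at d1 d2 d3 d4
  obtain ⟨d10, d1F⟩ := d1
  obtain ⟨⟨d20, d2F⟩, d21⟩ := d2
  obtain ⟨⟨⟨d30, d3F⟩, d31⟩, d32⟩ := d3
  obtain ⟨⟨⟨⟨d40, d4F⟩, d41⟩, d42⟩, d43⟩ := d4
  refine ⟨T ∪ Y1 ∪ Y2 ∪ Y3 ∪ Y4, ?_, ?_, ⟨a, by simp [hTdef]⟩, ?_, ?_⟩
  · simp only [disjoint_union_left]; exact ⟨⟨⟨⟨hTF, d1F⟩, d2F⟩, d3F⟩, d4F⟩
  · have := card_union_le T Y1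
    have := card_union_le (T ∪ Y1) Y2
    have := card_union_le (T ∪ Y1 ∪ Y2) Y3
    have := card_union_le (T ∪ Y1 ∪ Y2 ∪ Y3) Y4
    omega
  · have := til_four (Z := ∅) Til.empty n1 n2 n3 n4 n5 n6 (disjoint_empty_right _)
      (by simp only [disjoint_union_right]; exact ⟨disjoint_empty_right _, d21⟩)
      (by simp only [disjoint_union_right]; exact ⟨⟨disjoint_empty_right _, d31⟩, d32⟩)
      (by simp only [disjoint_union_right]; exact ⟨⟨⟨disjoint_empty_right _, d41⟩, d42⟩, d43⟩)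
      (by simp only [disjoint_union_left]
          exact ⟨⟨⟨⟨disjoint_empty_left _, d10⟩, d20⟩, d30⟩, d40⟩) c1 c2 c3 c4
    rw [empty_union, union_comm] at this
    simpa only [union_assoc] using this
  · have hs : 0 ≤ η ^ 2 := by positivity
    calc η ^ 8 * ∑ q, μ q = η ^ 2 * (η ^ 2 * (η ^ 2 * (η ^ 2 * ∑ q, μ q))) := by ring
      _ ≤ _ := mul_le_mul_of_nonneg_left (mul_le_mul_of_nonneg_left
          (mul_le_mul_of_nonneg_left H1 hs) hs) hs
      _ ≤ _ := mul_le_mul_of_nonneg_left (mul_le_mul_of_nonneg_left H2 hs) hs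
      _ ≤ _ := mul_le_mul_of_nonneg_left H3 hs
      _ ≤ _ := H4
      _ ≤ _ := by
        refine sum_le_sum_of_subset_of_nonneg (fun q hq => ?_) fun q _ _ => hμ q
        simp only [mem_filter, mem_univ, true_and] at hq ⊢
        obtain ⟨⟨⟨w1, w2⟩, w3⟩, w4⟩ := hq
        intro m1 m2 m3 m4 m5 m6 hd
        have hd' := hd
        simp only [quad, disjoint_insert_right, disjoint_singleton_right, mem_union, not_or]
          at hd'
        exact til_four (Til.single hTc) m1 m2 m3 m4 m5 m6 d10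
          (by simp only [disjoint_union_right]; exact ⟨d20, d21⟩)
          (by simp only [disjoint_union_right]; exact ⟨⟨d30, d31⟩, d32⟩)
          (by simp only [disjoint_union_right]; exact ⟨⟨⟨d40, d41⟩, d42⟩, d43⟩) hd
          (w1 hd'.1.1.1.1.2) (w2 hd'.2.1.1.1.2) (w3 hd'.2.2.1.1.2) (w4 hd'.2.2.2.2)

theorem family (k : ℕ) (hk : (16 * k : ℝ) ≤ η * Fintype.card V) (hη1 : η ≤ 1) :
    ∃ G : Finset (Finset V), (∀ X ∈ G, Til E X) ∧ (∀ X ∈ G, ∀ X' ∈ G, X ≠ X' → Disjoint X X') ∧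
      (G.biUnion id).card ≤ 16 * k ∧
      ∑ q : V × V × V × V, (1 / 2 : ℝ) ^ (G.filter fun X => Abs E X q).card
        ≤ (Fintype.card V : ℝ) ^ 4 * (1 - η ^ 8 / 2) ^ k := by
  induction k with
  | zero =>
    refine ⟨∅, by simp, by simp, by simp, ?_⟩
    simp; ring_nf; rfl
  | succ k ih =>
    push_cast at hk
    obtain ⟨G, g1, g2, g3, g4⟩ := ih (by linarith)
    have g3' : ((G.biUnion id).card : ℝ) ≤ 16 * k := by exact_mod_cast g3
    obtain ⟨X, x1, x2, x3, x4, x5⟩ := gadget hη hirr hout hin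
      (fun q => (1 / 2 : ℝ) ^ (G.filter fun X => Abs E X q).card) (fun q => by positivity)
      (G.biUnion id) (by linarith)
    have hd : ∀ X' ∈ G, Disjoint X X' := fun X' h =>
      disjoint_of_subset_right (subset_biUnion_of_mem id h) x1
    have hX : X ∉ G := fun h => by
      have := hd X h
      rw [disjoint_self_iff_empty] at this
      exact x3.ne_empty this
    refine ⟨insert X G, ?_, ?_, ?_, ?_⟩
    · intro Y hY
      rcases mem_insert.mp hY with rfl | h
      exacts [x4, g1 Y h]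
    · intro Y hY Y' hY' hne
      rcases mem_insert.mp hY with rfl | h <;> rcases mem_insert.mp hY' with rfl | h'
      exacts [(hne rfl).elim, hd _ h', (hd _ h).symm, g2 _ h _ h' hne]
    · rw [biUnion_insert]
      have := card_union_le (id X) (G.biUnion id)
      simp only [id] at this ⊢
      omega
    · have e : ∀ q : V × V × V × V, (1 / 2 : ℝ) ^ ((insert X G).filter fun X => Abs E X q).card
          = (1 / 2 : ℝ) ^ (G.filter fun X => Abs E X q).card -
            (1 / 2) * if Abs E X q then (1 / 2 : ℝ) ^ (G.filter fun X => Abs E X q).card else 0 := by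
        intro q
        rw [filter_insert]
        split_ifs with h
        · rw [card_insert_of_notMem (fun h' => hX (mem_filter.mp h').1)]; ring
        · ring
      simp only [e]
      rw [sum_sub_distrib, ← mul_sum, ← sum_filter]
      have h8 : η ^ 8 ≤ 1 := pow_le_one₀ hη.le hη1
      have := mul_le_mul_of_nonneg_left g4 (by linarith : 0 ≤ 1 - η ^ 8 / 2)
      rw [pow_succ (1 - η ^ 8 / 2)]
      linarith

end

theorem absorb {E : V → V → Prop} (j : ℕ) : ∀ (G : Finset (Finset V)) (Y : Finset V),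
    (∀ X ∈ G, Til E X) → (∀ X ∈ G, ∀ X' ∈ G, X ≠ X' → Disjoint X X') →
    (∀ q, j ≤ (G.filter fun X => Abs E X q).card) → Y.card = 4 * j → Disjoint Y (G.biUnion id) →
    Til E (Y ∪ G.biUnion id) := by
  induction j with
  | zero =>
    intro G Y g1 g2 _ hY _
    rw [card_eq_zero.mp hY, empty_union]
    induction G using Finset.induction_on with
    | empty => exact Til.empty
    | insert X G hX ih =>
      rw [biUnion_insert]
      refine Til.union (g1 X (mem_insert_self _ _)) (ih (fun Z hZ => g1 Z (mem_insert_of_mem hZ))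
        (fun Z hZ Z' hZ' => g2 Z (mem_insert_of_mem hZ) Z' (mem_insert_of_mem hZ'))
        (fun _ => Nat.zero_le _) (by rw [card_eq_zero.mp hY]; exact disjoint_empty_left _)) ?_
      rw [disjoint_biUnion_right]
      exact fun Z hZ => g2 X (mem_insert_self _ _) Z (mem_insert_of_mem hZ)
        (fun h => hX (h ▸ hZ))
  | succ j ih =>
    intro G Y g1 g2 g3 hY hd
    obtain ⟨Q, hQY, hQ⟩ := exists_subset_card_eq (s := Y) (n := 4) (by omega)
    obtain ⟨a, b, c, d, n1, n2, n3, n4, n5, n6, rfl⟩ := card_eq_four.mp hQ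
    obtain ⟨X, hX⟩ : (G.filter fun X => Abs E X (a, b, c, d)).Nonempty :=
      card_pos.mp (by have := g3 (a, b, c, d); omega)
    obtain ⟨hXG, hXa⟩ := mem_filter.mp hX
    have hXU : X ⊆ G.biUnion id := subset_biUnion_of_mem id hXG
    have t1 := hXa n1 n2 n3 n4 n5 n6
      (disjoint_of_subset_left hXU (disjoint_of_subset_right hQY hd.symm))
    have hsub : (G.erase X).biUnion id ⊆ G.biUnion id :=
      biUnion_subset_biUnion_of_subset_left _ (erase_subset _ _)
    have t2 := ih (G.erase X) (Y \ {a, b, c, d}) (fun Z hZ => g1 Z (mem_of_mem_erase hZ))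
      (fun Z hZ Z' hZ' => g2 Z (mem_of_mem_erase hZ) Z' (mem_of_mem_erase hZ'))
      (fun q => by
        have := g3 q
        rw [filter_erase]
        have := pred_card_le_card_erase (s := G.filter fun X => Abs E X q) (a := X)
        omega)
      (by have := card_sdiff_add_card_eq_card hQY; omega)
      (disjoint_of_subset_left sdiff_subset (disjoint_of_subset_right hsub hd))
    have hXd : Disjoint X ((G.erase X).biUnion id) := by
      rw [disjoint_biUnion_right]
      exact fun Z hZ => g2 X hXG Z (mem_of_mem_erase hZ) (ne_of_mem_erase hZ).symm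
    have := t1.union t2 (by
      simp only [disjoint_union_left, disjoint_union_right]
      exact ⟨⟨disjoint_of_subset_left hXU (disjoint_of_subset_right sdiff_subset hd.symm),
        disjoint_sdiff⟩, hXd,
        disjoint_of_subset_left hQY (disjoint_of_subset_right hsub hd)⟩)
    convert this using 1
    conv_lhs => rw [← insert_erase hXG, biUnion_insert, ← union_sdiff_of_subset hQY]
    ext v
    simp only [quad, mem_union, id]
    tauto

end Pool.Agent.H860Z.C4
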