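import Pool.Agent.H860Z.C4E

set_option autoImplicit false
set_option maxHeartbeats 400000
set_option linter.unusedSectionVars false
set_option linter.unusedVariables false

/-! Semi-degree `(1/2+η)n` forces a directed `C₄`-factor. -/

namespace Pool.Agent.H860Z.C4

open Finset Classical

theorem factor_aux (η : ℝ) (hη : 0 < η) (hη1 : η ≤ 1) : ∃ n0 : ℕ, ∀ (V : Type) [Fintype V]
    [DecidableEq V] (E : V → V → Prop) (hirr : ∀ a, ¬ E a a), n0 ≤ Fintype.card V →
    4 ∣ Fintype.card V →
    (∀ v, (1 / 2 + η) * Fintype.card V ≤ ((univ.filter fun x => E v x).card : ℝ)) →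
    (∀ v, (1 / 2 + η) * Fintype.card V ≤ ((univ.filter fun x => E x v).card : ℝ)) →
    Til E univ := by
  set ε := η ^ 9 / 128 with hε
  have hε0 : 0 < ε := by positivity
  obtain ⟨N0, HN⟩ := almost (η / 2) ε (by positivity) hε0
  obtain ⟨N1, H1⟩ := ev_lt (120 * Real.exp 5) (ε ^ 5) (by positivity)
  refine ⟨max (2 * N0) (max N1 1), fun V _ _ E hirr hn hdvd hout hin => ?_⟩
  set n := Fintype.card V with hndef
  have g1 := H1 n (by omega)
  have hn0 : (0 : ℝ) < n := by exact_mod_cast (by omega : 0 < n)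
  set k := ⌊η * n / 32⌋₊ with hk
  have k1 : (k : ℝ) ≤ η * n / 32 := Nat.floor_le (by positivity)
  have k2 : η * n / 32 < k + 1 := Nat.lt_floor_add_one _
  have hηn : 0 < η * n := by positivity
  obtain ⟨G, g1', g2, g3, g4⟩ := family hη hirr hout hin k (by linarith) hη1
  set U := G.biUnion id with hU
  have u1 : (U.card : ℝ) ≤ η * n / 2 := by
    have : (U.card : ℝ) ≤ 16 * k := by exact_mod_cast g3
    linarith
  have w1 : (univ \ U).card + U.card = n := card_sdiff_add_card_eq_card (subset_univ U)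
  have w2 : ((univ \ U).card : ℝ) + U.card = n := by exact_mod_cast w1
  have w3 : (0 : ℝ) ≤ U.card := Nat.cast_nonneg _
  have deg : ∀ p : V → Prop, (1 / 2 + η) * n ≤ ((univ.filter p).card : ℝ) →
      (1 / 2 + η / 2) * ((univ \ U).card : ℝ) ≤ (((univ \ U).filter p).card : ℝ) := by
    intro p hp
    have : (univ.filter p).card ≤ ((univ \ U).filter p).card + U.card := by
      refine le_trans (card_le_card fun x hx => ?_) (card_union_le _ _)
      by_cases h : x ∈ U
      · exact mem_union_right _ h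
      · exact mem_union_left _ (mem_filter.mpr ⟨mem_sdiff.mpr ⟨mem_univ _, h⟩,
          (mem_filter.mp hx).2⟩)
    have h2 : ((univ.filter p).card : ℝ) ≤ ((univ \ U).filter p).card + U.card := by
      exact_mod_cast this
    nlinarith
  obtain ⟨R, hR, hRc, hT⟩ := HN V E hirr (univ \ U) (by
      have h1 : (2 * N0 : ℝ) ≤ n := by exact_mod_cast (by omega : 2 * N0 ≤ n)
      have : (N0 : ℝ) ≤ (univ \ U).card := by nlinarith
      exact_mod_cast this) (fun v _ => deg _ (hout v)) (fun v _ => deg _ (hin v))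
  have hUT : Til E U := by
    simpa using absorb 0 G ∅ g1' g2 (fun _ => Nat.zero_le _) rfl (disjoint_empty_left _)
  obtain ⟨j, hj⟩ : 4 ∣ R.card := by
    have a1 := hUT.dvd hirr
    have a2 := hT.dvd hirr
    have a3 := card_sdiff_add_card_eq_card hR
    omega
  have hjR : (j : ℝ) ≤ ε * n + 4 := by
    have a1 : (j : ℝ) ≤ R.card := by exact_mod_cast (by omega : j ≤ R.card)
    nlinarith
  have hcnt : ∀ q, j ≤ (G.filter fun X => Abs E X q).card := by
    intro q
    by_contra hlt
    set c := (G.filter fun X => Abs E X q).card with hc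
    have c1 : (c : ℝ) ≤ ε * n + 4 := le_trans (by exact_mod_cast (not_le.mp hlt).le) hjR
    have a1 : (1 / 2 : ℝ) ^ c ≤ (n : ℝ) ^ 4 * (1 - η ^ 8 / 2) ^ k :=
      le_trans (single_le_sum (f := fun q : V × V × V × V =>
        (1 / 2 : ℝ) ^ (G.filter fun X => Abs E X q).card) (fun q _ => by positivity)
        (mem_univ q)) g4
    have h8 : η ^ 8 ≤ 1 := pow_le_one₀ hη.le hη1
    have h8' : 0 < η ^ 8 := by positivity
    have a2 : (1 - η ^ 8 / 2) ^ k ≤ Real.exp (-(η ^ 8 / 2)) ^ k :=
      pow_le_pow_left₀ (by linarith) (by linarith [Real.add_one_le_exp (-(η ^ 8 / 2))]) k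
    have a3 : Real.exp (-1) ^ c ≤ (1 / 2 : ℝ) ^ c := by
      refine pow_le_pow_left₀ (Real.exp_pos _).le ?_ c
      rw [Real.exp_neg, one_div]
      exact inv_anti₀ two_pos (by linarith [Real.add_one_le_exp (1 : ℝ)])
    rw [← Real.exp_nat_mul] at a2 a3
    have a4 : Real.exp (c * -1) ≤ (n : ℝ) ^ 4 * Real.exp (k * -(η ^ 8 / 2)) :=
      a3.trans (a1.trans (mul_le_mul_of_nonneg_left a2 (by positivity)))
    have a5 : ε * n + k * -(η ^ 8 / 2) ≤ 5 + c * -1 := by
      have : η ^ 8 * (η * n / 32) ≤ η ^ 8 * (k + 1) := mul_le_mul_of_nonneg_left k2.le h8'.le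
      have e : η ^ 8 * (η * n / 32) = 4 * (ε * n) := by rw [hε]; ring
      nlinarith
    have a6 : Real.exp (ε * n) * Real.exp (k * -(η ^ 8 / 2)) ≤
        Real.exp 5 * ((n : ℝ) ^ 4 * Real.exp (k * -(η ^ 8 / 2))) := by
      rw [← Real.exp_add]
      refine (Real.exp_le_exp.mpr a5).trans ?_
      rw [Real.exp_add]
      exact mul_le_mul_of_nonneg_left a4 (Real.exp_pos _).le
    rw [← mul_assoc] at a6
    have a7 := le_of_mul_le_mul_right a6 (Real.exp_pos _)
    have a8 := Real.pow_div_factorial_le_exp (ε * n) (by positivity) 5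
    have a9 : ((Nat.factorial 5 : ℕ) : ℝ) = 120 := by norm_num [Nat.factorial]
    rw [a9, div_le_iff₀ (by norm_num)] at a8
    have a10 := mul_lt_mul_of_pos_right g1 (by positivity : (0 : ℝ) < (n : ℝ) ^ 4)
    have a11 : (ε * n) ^ 5 = ε ^ 5 * n * (n : ℝ) ^ 4 := by ring
    linarith
  have hRU : Disjoint R U := disjoint_of_subset_left hR sdiff_disjoint
  have t1 := absorb j G R g1' g2 hcnt hj hRU
  have t2 := hT.union t1 (by
    rw [disjoint_union_right]
    exact ⟨sdiff_disjoint, disjoint_of_subset_left sdiff_subset sdiff_disjoint⟩)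
  convert t2 using 1
  rw [← union_assoc, sdiff_union_of_subset hR, sdiff_union_of_subset (subset_univ _)]

theorem Til.exists_fun {V : Type} [Fintype V] [DecidableEq V] {E : V → V → Prop}
    (hirr : ∀ a, ¬ E a a) {X : Finset V} (h : Til E X) :
    ∃ k : ℕ, ∃ f : Fin k × Fin 4 → V, Function.Injective f ∧ (∀ v, v ∈ X ↔ ∃ p, f p = v) ∧
      ∀ i j, E (f (i, j)) (f (i, j + 1)) := by
  induction h with
  | empty => exact ⟨0, fun p => p.1.elim0, fun p => p.1.elim0, by simp, fun i => i.elim0⟩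
  | add T X hT hd _ ih =>
    obtain ⟨k, f, f1, f2, f3⟩ := ih
    obtain ⟨a, b, c, d, rfl, n2, n5, e1, e2, e3, e4⟩ := hT
    have n1 : a ≠ b := fun h => hirr a (h ▸ e1 : E a a)
    have n4 : b ≠ c := fun h => hirr b (h ▸ e2 : E b b)
    have n6 : c ≠ d := fun h => hirr c (h ▸ e3 : E c c)
    have n3 : a ≠ d := fun h => hirr a (by rw [← h] at e4; exact e4)
    set g : Fin 4 → V := ![a, b, c, d] with hg
    have g1 : Function.Injective g := by
      intro i j hij
      fin_cases i <;> fin_cases j <;> simp_all [eq_comm]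
    have g2 : ∀ v, v ∈ ({a, b, c, d} : Finset V) ↔ ∃ j, g j = v := by
      intro v
      simp [hg, Fin.exists_fin_succ, eq_comm]
    have g3 : ∀ j p, g j ≠ f p := fun j p h =>
      disjoint_left.mp hd ((g2 _).mpr ⟨j, rfl⟩) ((f2 _).mpr ⟨p, h.symm⟩)
    refine ⟨k + 1, fun p => Fin.cases (motive := fun _ => V) (g p.2) (fun i => f (i, p.2)) p.1,
      ?_, ?_, ?_⟩
    · rintro ⟨i, j⟩ ⟨i', j'⟩ h
      induction i using Fin.cases <;> induction i' using Fin.cases <;>
        simp only [Fin.cases_zero, Fin.cases_succ] at h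
      · rw [g1 h]
      · exact (g3 _ _ h).elim
      · exact (g3 _ _ h.symm).elim
      · have := f1 h
        simp only [Prod.mk.injEq] at this
        rw [this.1, this.2]
    · intro v
      rw [mem_union, g2, f2]
      constructor
      · rintro (⟨j, rfl⟩ | ⟨⟨i, j⟩, rfl⟩)
        · exact ⟨(0, j), rfl⟩
        · exact ⟨(i.succ, j), rfl⟩
      · rintro ⟨⟨i, j⟩, rfl⟩
        induction i using Fin.cases
        · exact Or.inl ⟨j, rfl⟩
        · exact Or.inr ⟨(_, j), rfl⟩
    · intro i j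
      induction i using Fin.cases
      · simp only [Fin.cases_zero]
        fin_cases j
        · exact e1
        · exact e2
        · exact e3
        · exact e4
      · simp only [Fin.cases_succ]
        exact f3 _ _

theorem factor (η : ℝ) (hη : 0 < η) : ∃ n₀ : ℕ, ∀ n : ℕ, n₀ ≤ n → 4 ∣ n →
    ∀ A : Fin n → Fin n → Prop,
      (∀ v : Fin n,
        ((1 / 2 + η) * (n : ℝ) ≤ (({w : Fin n | w ≠ v ∧ A v w}.ncard : ℕ) : ℝ)) ∧
        ((1 / 2 + η) * (n : ℝ) ≤ (({w : Fin n | w ≠ v ∧ A w v}.ncard : ℕ) : ℝ))) →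
      ∃ f : Fin (n / 4) × Fin 4 → Fin n, Function.Bijective f ∧
        ∀ i : Fin (n / 4), ∀ j : Fin 4, A (f (i, j)) (f (i, j + 1)) := by
  obtain ⟨n0, H⟩ := factor_aux (min η 1) (lt_min hη one_pos) (min_le_right _ _)
  refine ⟨n0, fun n hn hdvd A hA => ?_⟩
  have hle : (1 / 2 + min η 1) * (n : ℝ) ≤ (1 / 2 + η) * n :=
    mul_le_mul_of_nonneg_right (by linarith [min_le_left η 1]) (Nat.cast_nonneg _)
  have hirr : ∀ a : Fin n, ¬ (a ≠ a ∧ A a a) := fun a h => h.1 rfl
  have hT := H (Fin n) (fun u v => u ≠ v ∧ A u v) hirr (by simpa using hn) (by simpa using hdvd)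
    (fun v => by
      rw [Fintype.card_fin]
      refine hle.trans ((hA v).1.trans (le_of_eq ?_))
      rw [← Set.ncard_coe_finset]
      congr 2
      ext w
      simp [eq_comm])
    (fun v => by
      rw [Fintype.card_fin]
      refine hle.trans ((hA v).2.trans (le_of_eq ?_))
      rw [← Set.ncard_coe_finset]
      congr 2
      ext w
      simp)
  obtain ⟨k, f, f1, f2, f3⟩ := hT.exists_fun hirr
  have hb : Function.Bijective f := ⟨f1, fun v => (f2 v).mp (mem_univ v)⟩
  have hc := Fintype.card_of_bijective hb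
  simp only [Fintype.card_prod, Fintype.card_fin] at hc
  have hk : k = n / 4 := by omega
  subst hk
  exact ⟨f, hb, fun i j => (f3 i j).2⟩

end Pool.Agent.H860Z.C4
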