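import Pool.Agent.H860Z.PreimDefs

namespace Pool.Agent.H860Z.Preim

open Polynomial

noncomputable section

variable {N : ℕ}

/-- coefficient of the mixed monomial in the `i`-th form -/
def coef (N : ℕ) (i : Fin (N + 1)) : Polynomial ℚ :=
  if i.val = 1 ∨ i = Fin.last N then 0 else Polynomial.X

/-- the family, of degree `e + 2` -/
def fam (N e : ℕ) : Tuple N := fun i =>
  MvPolynomial.X i ^ (e + 2) +
    MvPolynomial.C (coef N i) * (MvPolynomial.X i * MvPolynomial.X (Fin.last N) ^ (e + 1))

/-- specialised coefficient -/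
def cf (t : Qbar) (i : Fin (N + 1)) : Qbar := if i.val = 1 ∨ i = Fin.last N then 0 else t

lemma cf_last (t : Qbar) : cf t (Fin.last N) = 0 := by simp [cf]

lemma spec_fam (e : ℕ) (t : Qbar) (v : Fin (N + 1) → Qbar) (i : Fin (N + 1)) :
    spec (fam N e) t v i = v i ^ (e + 2) + cf t i * (v i * v (Fin.last N) ^ (e + 1)) := by
  unfold spec fam cf coef
  split_ifs <;> simp

lemma isFamily_fam (N e : ℕ) : IsFamily (e + 2) (fam N e) := by
  refine ⟨fun i => ?_, fun t v hv h => hv ?_⟩
  · refine (MvPolynomial.isHomogeneous_X_pow i (e + 2)).add ?_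
    have h1 := ((MvPolynomial.isHomogeneous_X (Polynomial ℚ) i).mul
      (MvPolynomial.isHomogeneous_X_pow (R := Polynomial ℚ) (Fin.last N) (e + 1))).C_mul (coef N i)
    rwa [show 1 + (e + 1) = e + 2 by ring] at h1
  · have hl : v (Fin.last N) = 0 := by
      have h1 := congrFun h (Fin.last N)
      rw [spec_fam, cf_last] at h1
      simpa using h1
    funext i
    have h1 := congrFun h i
    rw [spec_fam, hl] at h1
    simpa using h1

/-- restriction of the `i`-th form to a line -/
def lineP (e : ℕ) (s : Qbar) (v u : Fin (N + 1) → Qbar) (i : Fin (N + 1)) : Qbar[X] :=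
  (C (v i) + C (u i) * X) ^ (e + 2) +
    C (cf s i) * ((C (v i) + C (u i) * X) *
      (C (v (Fin.last N)) + C (u (Fin.last N)) * X) ^ (e + 1))

lemma eval_lineP (e : ℕ) (s : Qbar) (v u : Fin (N + 1) → Qbar) (i : Fin (N + 1)) (r : Qbar) :
    (lineP e s v u i).eval r = spec (fam N e) s (v + r • u) i := by
  rw [spec_fam]
  simp [lineP, mul_comm r]

/-- Jacobian matrix -/
def jac (e : ℕ) (s : Qbar) (v : Fin (N + 1) → Qbar) : Matrix (Fin (N + 1)) (Fin (N + 1)) Qbar :=
  Matrix.of fun i j =>
    (if i = j then ((e : Qbar) + 2) * v i ^ (e + 1) + cf s i * v (Fin.last N) ^ (e + 1) else 0) +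
      (if Fin.last N = j then cf s i * v i * ((e : Qbar) + 1) * v (Fin.last N) ^ e else 0)

lemma deriv_lineP (e : ℕ) (s : Qbar) (v u : Fin (N + 1) → Qbar) (i : Fin (N + 1)) :
    (derivative (lineP e s v u i)).eval 0 = (jac e s v).mulVec u i := by
  simp only [lineP, jac, Matrix.mulVec, dotProduct, Matrix.of_apply, add_mul, ite_mul, zero_mul,
    Finset.sum_add_distrib, Finset.sum_ite_eq, Finset.mem_univ, if_true]
  simp [derivative_pow]
  ring

lemma trace_jac (e : ℕ) (s : Qbar) (v : Fin (N + 1) → Qbar) :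
    (jac e s v).trace =
      ∑ i, (((e : Qbar) + 2) * v i ^ (e + 1) + cf s i * v (Fin.last N) ^ (e + 1)) := by
  unfold Matrix.trace
  refine Finset.sum_congr rfl fun i _ => ?_
  simp only [jac, Matrix.diag, Matrix.of_apply, if_true]
  by_cases h : Fin.last N = i
  · subst h; simp [cf_last]
  · simp [h]

lemma jac_conj (e : ℕ) {s t : Qbar} (A : GL (Fin (N + 1)) Qbar) (c : Qbar)
    (h : ∀ v : Fin (N + 1) → Qbar, spec (fam N e) t (Matrix.mulVec A.val v) =
      c • Matrix.mulVec A.val (spec (fam N e) s v)) (v : Fin (N + 1) → Qbar) :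
    (jac e t (A.val.mulVec v)).trace = c * (jac e s v).trace := by
  have h1 : ∀ u, (jac e t (A.val.mulVec v) * A.val).mulVec u =
      (c • (A.val * jac e s v)).mulVec u := by
    intro u
    funext i
    have h2 : lineP e t (A.val.mulVec v) (A.val.mulVec u) i =
        C c * ∑ j, C (A.val i j) * lineP e s v u j := by
      apply Polynomial.funext
      intro r
      rw [eval_lineP, ← Matrix.mulVec_smul, ← Matrix.mulVec_add, h]
      simp [Matrix.mulVec, dotProduct, eval_finsetSum, eval_lineP]
    have h3 := congrArg (fun p => (derivative p).eval 0) h2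
    simp only [deriv_lineP] at h3
    have h6 : (c • (A.val * jac e s v)).mulVec u i =
        c * ∑ j, A.val i j * (jac e s v).mulVec u j := by
      rw [Matrix.smul_mulVec, ← Matrix.mulVec_mulVec]
      rfl
    rw [← Matrix.mulVec_mulVec, h3, h6]
    simp only [derivative_mul, derivative_C, zero_mul, zero_add, eval_mul, eval_C,
      derivative_sum, eval_finsetSum, deriv_lineP]
  have h4 : jac e t (A.val.mulVec v) * A.val = c • (A.val * jac e s v) := by
    ext i j
    have := congrFun (h1 (Pi.single j 1)) i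
    simpa using this
  have h5 : jac e t (A.val.mulVec v) = c • (A.val * jac e s v * A.inv) := by
    rw [← Matrix.smul_mul, ← h4, Matrix.mul_assoc, A.val_inv, Matrix.mul_one]
  rw [h5, Matrix.trace_smul, Matrix.trace_mul_cycle, A.inv_val, Matrix.one_mul, smul_eq_mul]

lemma sum_cf (hN : 2 ≤ N) : ∃ k : ℕ, 1 ≤ k ∧ ∀ t : Qbar,
    ∑ i : Fin (N + 1), cf t i = k * t := by
  refine ⟨(Finset.univ.filter fun i : Fin (N + 1) => ¬ (i.val = 1 ∨ i = Fin.last N)).card, ?_, ?_⟩
  · refine Finset.card_pos.2 ⟨0, ?_⟩
    simp only [Finset.mem_filter, Finset.mem_univ, true_and, Fin.ext_iff, Fin.val_zero,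
      Fin.val_last]
    omega
  · intro t
    unfold cf
    rw [Finset.sum_ite]
    simp

theorem maximalVarying_fam (hN : 2 ≤ N) (e : ℕ) : MaximalVarying (fam N e) := by
  intro s
  obtain ⟨k, hk, hsum⟩ := sum_cf hN
  have hfin : (Set.univ.pi fun _ : Fin (N + 1) => ({0, 1, 1 - s} : Set Qbar)).Finite :=
    Set.Finite.pi fun _ => Set.toFinite _
  refine (hfin.image fun u : Fin (N + 1) → Qbar =>
    ((∑ i, (((e : Qbar) + 2) * u i + cf s i * u (Fin.last N))) - ((e : Qbar) + 2)) / k).subset ?_
  rintro t ⟨A, c, hc, h⟩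
  set w : Fin (N + 1) → Qbar := Pi.single (Fin.last N) 1 with hw
  set v := A.inv.mulVec w with hv
  have hAv : A.val.mulVec v = w := by
    rw [hv, Matrix.mulVec_mulVec, A.val_inv, Matrix.one_mulVec]
  have hfix : spec (fam N e) t w = w := by
    funext i
    rw [spec_fam]
    by_cases hi : i = Fin.last N
    · subst hi; simp [hw, cf_last]
    · simp [hw, hi]
  have hv2 : c • spec (fam N e) s v = v := by
    have h1 := h v
    rw [hAv, hfix, ← Matrix.mulVec_smul] at h1
    have h2 := congrArg (A.inv.mulVec) h1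
    rw [Matrix.mulVec_mulVec, A.inv_val, Matrix.one_mulVec] at h2
    rw [← h2]
  have htr := jac_conj e A c h v
  rw [hAv, trace_jac, trace_jac] at htr
  have hL : ∑ i, (((e : Qbar) + 2) * w i ^ (e + 1) + cf t i * w (Fin.last N) ^ (e + 1)) =
      ((e : Qbar) + 2) + k * t := by
    rw [Finset.sum_add_distrib, ← hsum t]
    congr 1
    · rw [Finset.sum_eq_single (Fin.last N)]
      · simp [hw]
      · intro i _ hi; simp [hw, hi]
      · simp
    · simp [hw]
  have hcoord : ∀ i, v i * (c * v i ^ (e + 1) + cf s i * (c * v (Fin.last N) ^ (e + 1)) - 1) = 0 := by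
    intro i
    have h1 := congrFun hv2 i
    rw [Pi.smul_apply, spec_fam, smul_eq_mul] at h1
    linear_combination h1
  have hlast : c * v (Fin.last N) ^ (e + 1) = 0 ∨ c * v (Fin.last N) ^ (e + 1) = 1 := by
    have h1 := hcoord (Fin.last N)
    rw [cf_last] at h1
    rcases mul_eq_zero.1 h1 with h2 | h2
    · left; simp [h2]
    · right; linear_combination h2
  refine ⟨fun i => c * v i ^ (e + 1), ?_, ?_⟩
  · intro i _
    simp only [Set.mem_insert_iff, Set.mem_singleton_iff]
    rcases mul_eq_zero.1 (hcoord i) with h2 | h2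
    · left; simp [h2]
    · right
      rcases hlast with h3 | h3
      · left; rw [h3] at h2; linear_combination h2
      · rw [h3] at h2
        unfold cf at h2
        split_ifs at h2
        · left; linear_combination h2
        · right; linear_combination h2
  · have hk0 : (k : Qbar) ≠ 0 := by exact_mod_cast (by omega : k ≠ 0)
    rw [div_eq_iff hk0]
    rw [hL, Finset.mul_sum] at htr
    have : ∑ i, (((e : Qbar) + 2) * (c * v i ^ (e + 1)) +
        cf s i * (c * v (Fin.last N) ^ (e + 1))) = ∑ i, c * (((e : Qbar) + 2) * v i ^ (e + 1) +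
          cf s i * v (Fin.last N) ^ (e + 1)) := Finset.sum_congr rfl fun i _ => by ring
    simp only [this]
    rw [← htr]
    ring

end

end Pool.Agent.H860Z.Preim
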