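import Pool.Agent.H860Z.PreimA

namespace Pool.Agent.H860Z.Preim

open Polynomial
open scoped IntermediateField

noncomputable section

variable {N : ℕ}

lemma eval_smul_of_hom {P : MvPolynomial (Fin (N + 1)) Qbar} {m : ℕ} (hP : P.IsHomogeneous m)
    (c : Qbar) (v : Fin (N + 1) → Qbar) :
    MvPolynomial.eval (c • v) P = c ^ m * MvPolynomial.eval v P := by
  rw [MvPolynomial.eval_eq', MvPolynomial.eval_eq', Finset.mul_sum]
  refine Finset.sum_congr rfl fun d hd => ?_
  have h1 : ∑ i, d i = m := by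
    have h2 := hP (MvPolynomial.mem_support_iff.1 hd)
    rw [← h2, Finsupp.weight_apply, Finsupp.sum_fintype _ _ (by simp)]
    simp
  simp only [Pi.smul_apply, smul_eq_mul, mul_pow, Finset.prod_mul_distrib,
    Finset.prod_pow_eq_pow_sum, h1]
  ring

lemma exists_bad {P : MvPolynomial (Fin (N + 1)) Qbar} {m : ℕ} (hP : P.totalDegree ≤ m)
    {v : Fin (N + 1) → Qbar} (hv : MvPolynomial.eval v P ≠ 0) (i : Fin (N + 1)) :
    ∃ B : Finset Qbar, B.card ≤ m ∧
      ∀ s, s ∉ B → MvPolynomial.eval (Function.update v i s) P ≠ 0 := by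
  classical
  set f : Fin (N + 1) → Qbar[X] := fun j => if j = i then X else C (v j) with hf
  set q : Qbar[X] := MvPolynomial.aeval f P with hq
  have hev : ∀ s, q.eval s = MvPolynomial.eval (Function.update v i s) P := by
    intro s
    have h1 : q.eval s = Polynomial.aeval s q := by simp
    rw [h1, hq, ← AlgHom.comp_apply, MvPolynomial.comp_aeval, ← MvPolynomial.aeval_eq_eval]
    congr 2
    funext j
    by_cases hj : j = i
    · subst hj; simp [hf]
    · simp [hf, hj]
  have hdeg : q.natDegree ≤ m := by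
    have := MvPolynomial.aeval_natDegree_le (n := 1) P hP f (fun j => by
      by_cases hj : j = i <;> simp [hf, hj])
    simpa using this
  have hq0 : q ≠ 0 := by
    intro h
    apply hv
    have := hev (v i)
    rw [h, Function.update_eq_self] at this
    simpa using this.symm
  refine ⟨q.roots.toFinset, (Multiset.toFinset_card_le _).trans ((card_roots' q).trans hdeg), ?_⟩
  intro s hs h
  apply hs
  rw [Multiset.mem_toFinset, mem_roots hq0, IsRoot.def, hev, h]

lemma exists_update {P : MvPolynomial (Fin (N + 1)) Qbar} {m : ℕ} (hP : P.totalDegree ≤ m)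
    {v : Fin (N + 1) → Qbar} (hv : MvPolynomial.eval v P ≠ 0) (S : Finset Qbar) (hS : m < S.card)
    (I : Finset (Fin (N + 1))) :
    ∃ w : Fin (N + 1) → Qbar, MvPolynomial.eval w P ≠ 0 ∧ (∀ i ∈ I, w i ∈ S) ∧
      ∀ i, i ∉ I → w i = v i := by
  classical
  induction I using Finset.induction_on with
  | empty => exact ⟨v, hv, by simp, fun _ _ => rfl⟩
  | insert i I hi ih =>
    obtain ⟨w, hw1, hw2, hw3⟩ := ih
    obtain ⟨B, hB1, hB2⟩ := exists_bad hP hw1 i
    obtain ⟨s, hs1, hs2⟩ : ∃ s ∈ S, s ∉ B := by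
      by_contra h
      push Not at h
      have := Finset.card_le_card (show S ⊆ B from h)
      omega
    refine ⟨Function.update w i s, hB2 s hs2, ?_, ?_⟩
    · intro j hj
      by_cases hji : j = i
      · subst hji; simpa using hs1
      · rw [Function.update_of_ne hji]
        exact hw2 j ((Finset.mem_insert.1 hj).resolve_left hji)
    · intro j hj
      rw [Finset.mem_insert, not_or] at hj
      rw [Function.update_of_ne hj.1, hw3 j hj.2]

lemma exists_last_one {P : MvPolynomial (Fin (N + 1)) Qbar} {m : ℕ} (hP : P.IsHomogeneous m)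
    {v : Fin (N + 1) → Qbar} (hv : MvPolynomial.eval v P ≠ 0) :
    ∃ w : Fin (N + 1) → Qbar, MvPolynomial.eval w P ≠ 0 ∧ w (Fin.last N) = 1 := by
  classical
  obtain ⟨B, -, hB⟩ := exists_bad hP.totalDegree_le hv (Fin.last N)
  obtain ⟨s, hs⟩ := Infinite.exists_notMem_finset (insert (0 : Qbar) B)
  rw [Finset.mem_insert, not_or] at hs
  refine ⟨s⁻¹ • Function.update v (Fin.last N) s, ?_, ?_⟩
  · rw [eval_smul_of_hom hP]
    exact mul_ne_zero (pow_ne_zero _ (inv_ne_zero hs.1)) (hB s hs.2)
  · simp [hs.1]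

lemma spec_smul (e : ℕ) (t c : Qbar) (v : Fin (N + 1) → Qbar) :
    spec (fam N e) t (c • v) = c ^ (e + 2) • spec (fam N e) t v := by
  funext i
  simp only [spec_fam, Pi.smul_apply, smul_eq_mul]
  ring

lemma endo_mk (e : ℕ) (t : Qbar) (v : Fin (N + 1) → Qbar) (hv : v ≠ 0) :
    endo (isFamily_fam N e) t (Projectivization.mk Qbar v hv) =
      Projectivization.mk Qbar (spec (fam N e) t v) ((isFamily_fam N e).2 t v hv) := by
  obtain ⟨a, ha⟩ := Projectivization.exists_smul_eq_mk_rep Qbar v hv
  unfold endo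
  rw [Projectivization.mk_eq_mk_iff']
  refine ⟨(a : Qbar) ^ (e + 2), ?_⟩
  rw [← ha, ← spec_smul]
  rfl

lemma iterate_ne (e : ℕ) (t : Qbar) (n : ℕ) (v : Fin (N + 1) → Qbar) (hv : v ≠ 0) :
    (spec (fam N e) t)^[n] v ≠ 0 := by
  induction n with
  | zero => exact hv
  | succ n ih => rw [Function.iterate_succ_apply']; exact (isFamily_fam N e).2 t _ ih

lemma endo_iterate_mk (e : ℕ) (t : Qbar) (n : ℕ) (v : Fin (N + 1) → Qbar) (hv : v ≠ 0) :
    (endo (isFamily_fam N e) t)^[n] (Projectivization.mk Qbar v hv) =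
      Projectivization.mk Qbar ((spec (fam N e) t)^[n] v) (iterate_ne e t n v hv) := by
  induction n with
  | zero => rfl
  | succ n ih =>
    rw [Function.iterate_succ_apply', ih, endo_mk]
    congr 1
    rw [Function.iterate_succ_apply']

/-- the one-variable map in the moving coordinates -/
def gmap (e : ℕ) (t x : Qbar) : Qbar := x ^ (e + 2) + t * x

lemma iterate_spec (e : ℕ) (t : Qbar) (n : ℕ) (v : Fin (N + 1) → Qbar)
    (hv : v (Fin.last N) = 1) (i : Fin (N + 1)) :
    (spec (fam N e) t)^[n] v i = (gmap e (cf t i))^[n] (v i) := by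
  induction n generalizing i with
  | zero => rfl
  | succ n ih =>
    have hl : (spec (fam N e) t)^[n] v (Fin.last N) = 1 := by
      rw [ih, cf_last, hv]
      apply Function.iterate_fixed
      simp [gmap]
    rw [Function.iterate_succ_apply', Function.iterate_succ_apply', spec_fam, hl, ih]
    simp [gmap]

lemma gmap_zero_iterate (e n : ℕ) (y : Qbar) : (gmap e 0)^[n] y = y ^ ((e + 2) ^ n) := by
  induction n with
  | zero => simp
  | succ n ih => rw [Function.iterate_succ_apply', ih, gmap, zero_mul, add_zero, ← pow_mul, pow_succ]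

lemma gmap_surj (e : ℕ) (t : Qbar) : Function.Surjective (gmap e t) := by
  intro y
  have hdeg : (X ^ (e + 2) + (C t * X - C y) : Qbar[X]).degree = (e + 2 : ℕ) := by
    rw [degree_add_eq_left_of_degree_lt] <;> rw [degree_X_pow]
    refine lt_of_le_of_lt (b := 1) ?_ ?_
    · compute_degree
    · exact_mod_cast (by omega : 1 < e + 2)
  obtain ⟨x, hx⟩ := IsAlgClosed.exists_root (X ^ (e + 2) + (C t * X - C y) : Qbar[X])
    (by rw [hdeg]; exact_mod_cast (by omega : e + 2 ≠ 0))
  refine ⟨x, ?_⟩
  simp only [IsRoot.def, eval_add, eval_pow, eval_X, eval_sub, eval_mul, eval_C] at hx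
  unfold gmap
  linear_combination hx

/-- a long backward chain above the fixed point `0` -/
lemma exists_chain (e : ℕ) {t : Qbar} (ht : t ≠ 0) (k : ℕ) :
    ∃ z : Qbar, (gmap e t)^[k] z ≠ 0 ∧ (gmap e t)^[k + 1] z = 0 := by
  obtain ⟨x, hx⟩ := IsAlgClosed.exists_pow_nat_eq (-t) (n := e + 1) (by omega)
  obtain ⟨z, hz⟩ := (gmap_surj e t).iterate k x
  refine ⟨z, ?_, ?_⟩
  · rw [hz]
    rintro rfl
    apply ht
    simpa using hx.symm
  · rw [Function.iterate_succ_apply', hz, gmap, pow_succ, hx]
    ring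

lemma chain_injOn (e : ℕ) {t z : Qbar} {k : ℕ} (h1 : (gmap e t)^[k] z ≠ 0)
    (h2 : (gmap e t)^[k + 1] z = 0) :
    Set.InjOn (fun j => (gmap e t)^[j] z) (Finset.range (k + 1) : Set ℕ) := by
  have h0 : ∀ n, (gmap e t)^[n] 0 = 0 := fun n => Function.iterate_fixed (by simp [gmap]) n
  have key : ∀ i j, i < j → j ≤ k → (gmap e t)^[i] z ≠ (gmap e t)^[j] z := by
    intro i j hij hjk h
    apply h1
    have h3 : (gmap e t)^[k] z = (gmap e t)^[k - i] ((gmap e t)^[i] z) := by
      rw [← Function.iterate_add_apply]; congr 1; omega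
    rw [h3, h, ← Function.iterate_add_apply, show k - i + j = (j - i - 1) + (k + 1) by omega,
      Function.iterate_add_apply, h2, h0]
  intro i hi j hj h
  simp only [Finset.coe_range, Set.mem_Iio] at hi hj
  rcases lt_trichotomy i j with hij | hij | hij
  · exact absurd h (key i j hij (by omega))
  · exact hij
  · exact absurd h.symm (key j i hij (by omega))

lemma isIntegral_Qbar (z : Qbar) : IsIntegral ℚ z := by
  have h := (AlgebraicClosure.isAlgebraic ℚ).isAlgebraic z
  exact h.isIntegral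

lemma chain_degree (e : ℕ) (q : ℚ) {z : Qbar} {n : ℕ}
    (h2 : (gmap e (algebraMap ℚ Qbar q))^[n] z = 0) :
    Module.finrank ℚ ℚ⟮z⟯ ≤ (e + 2) ^ n := by
  set p : ℚ[X] := X ^ (e + 2) + C q * X with hp
  have hpd : p.natDegree = e + 2 := by
    rw [hp, natDegree_add_eq_left_of_natDegree_lt] <;> rw [natDegree_X_pow]
    refine lt_of_le_of_lt (b := 1) ?_ (by omega)
    compute_degree
  have hd : (p.comp^[n] X).natDegree = (e + 2) ^ n := by
    rw [natDegree_iterate_comp, hpd, natDegree_X, mul_one]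
  have hne : p.comp^[n] X ≠ 0 := by
    intro h
    rw [h, natDegree_zero] at hd
    exact absurd hd.symm (by positivity)
  have hroot : Polynomial.aeval z (p.comp^[n] X) = 0 := by
    rw [aeval_def, iterate_comp_eval₂, eval₂_X, ← h2]
    congr 1
    funext x
    simp [hp, gmap]
  have hint : IsIntegral ℚ z := isIntegral_Qbar z
  rw [IntermediateField.adjoin.finrank hint, ← hd]
  exact natDegree_le_natDegree (minpoly.degree_le_of_ne_zero ℚ z hne hroot)

lemma iterate_mem (e : ℕ) (q : ℚ) (z : Qbar) (j : ℕ) :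
    (gmap e (algebraMap ℚ Qbar q))^[j] z ∈ ℚ⟮z⟯ := by
  induction j with
  | zero => exact IntermediateField.mem_adjoin_simple_self ℚ z
  | succ j ih =>
    rw [Function.iterate_succ_apply', gmap]
    exact add_mem (pow_mem ih _) (mul_mem (IntermediateField.algebraMap_mem _ q) ih)

lemma ptDegree_le {z : Qbar} {w : Fin (N + 1) → Qbar} (hw : w ≠ 0) (h : ∀ i, w i ∈ ℚ⟮z⟯) :
    ptDegree (Projectivization.mk Qbar w hw) ≤ Module.finrank ℚ ℚ⟮z⟯ := by
  have hint : IsIntegral ℚ z := isIntegral_Qbar z
  have := IntermediateField.adjoin.finiteDimensional hint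
  apply IntermediateField.finrank_le_of_le_right
  rw [IntermediateField.adjoin_le_iff]
  rintro r ⟨i, j, rfl⟩
  obtain ⟨a, ha⟩ := Projectivization.exists_smul_eq_mk_rep Qbar w hw
  rw [← ha]
  have : (a • w) i / (a • w) j = w i / w j := by
    simp only [Pi.smul_apply, Units.smul_def, smul_eq_mul]
    exact mul_div_mul_left _ _ a.ne_zero
  rw [this]
  exact div_mem (h i) (h j)

end

end Pool.Agent.H860Z.Preim
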