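import Pool.Agent.H860Z.PreimB

namespace Pool.Agent.H860Z.Preim

open Polynomial
open scoped IntermediateField

noncomputable section

variable {N : ℕ}

/-- the marked point -/
def mark (hN : 2 ≤ N) : MarkedPoint N where
  coords := fun i => if i.val = 1 then X else if i = Fin.last N then 1 else 0
  ne_zero := fun t h => by
    have h1 := congrFun h (Fin.last N)
    have h2 : ¬ N = 1 := by omega
    simp [vecAt, h2] at h1

/-- the tower of rational numbers -/
def tow (e n : ℕ) : ℚ := 2 ^ ((e + 2) ^ n)

lemma tow_inj (e : ℕ) : Function.Injective fun n => algebraMap ℚ Qbar (tow e n) := by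
  intro a b h
  have h1 : tow e a = tow e b := (algebraMap ℚ Qbar).injective h
  unfold tow at h1
  have h2 : (e + 2) ^ a = (e + 2) ^ b := pow_right_injective₀ (by norm_num) (by norm_num) h1
  exact Nat.pow_right_injective (by omega) h2

lemma numDegree_rat (q : ℚ) : numDegree (algebraMap ℚ Qbar q) ≤ 1 := by
  unfold numDegree
  rw [IntermediateField.finrank_adjoin_simple_eq_one_iff.2 (IntermediateField.algebraMap_mem _ q)]

theorem not_star (hN : 2 ≤ N) (e : ℕ) : ¬ Star (isFamily_fam N e) (mark hN) := by
  classical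
  rintro ⟨V, ⟨S, hS, rfl⟩, hV, hstar⟩
  obtain ⟨⟨t0, x0⟩, hp⟩ := (Set.ne_univ_iff_exists_notMem _).1 hV
  simp only [Set.mem_ofPred_eq, not_forall] at hp
  obtain ⟨P, hPS, hP0⟩ := hp
  obtain ⟨m, hm⟩ := hS P hPS
  obtain ⟨B0, hB0⟩ := hstar ((e + 2) ^ (m + 1)) (Nat.one_le_pow _ _ (by omega))
  set R : Qbar[X] := MvPolynomial.eval (fun i => C (x0.rep i)) P with hR
  have hRev : ∀ t, R.eval t = MvPolynomial.eval₂ (evalRingHom t) x0.rep P := by
    intro t
    have h1 := MvPolynomial.eval₂_comp_left (evalRingHom t) (RingHom.id _)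
      (fun i => C (x0.rep i)) P
    rw [hR, ← coe_evalRingHom, ← MvPolynomial.eval₂_id, h1]
    congr 1
    funext i
    simp
  have hR0 : R ≠ 0 := by
    intro h
    apply hP0
    rw [← hRev, h, eval_zero]
  have hfin : {n : ℕ | R.eval (algebraMap ℚ Qbar (tow e n)) = 0}.Finite := by
    refine ((R.roots.toFinset.finite_toSet).preimage (tow_inj e).injOn).subset ?_
    intro n hn
    simpa [hR0] using hn
  obtain ⟨n, hn1, hn2⟩ : ∃ n, B0 + m + m + 1 ≤ n ∧ R.eval (algebraMap ℚ Qbar (tow e n)) ≠ 0 := by
    obtain ⟨b, hb⟩ := hfin.bddAbove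
    refine ⟨max (B0 + m + m + 1) (b + 1), le_max_left _ _, fun h => ?_⟩
    have := hb h
    have := le_max_right (B0 + m + m + 1) (b + 1)
    omega
  set t : Qbar := algebraMap ℚ Qbar (tow e n) with ht
  have ht0 : t ≠ 0 := by
    rw [ht]
    simp [tow]
  set Pt : MvPolynomial (Fin (N + 1)) Qbar := MvPolynomial.map (evalRingHom t) P with hPt
  have hPth : Pt.IsHomogeneous m := hm.map _
  have hPtev : ∀ v, MvPolynomial.eval v Pt = MvPolynomial.eval₂ (evalRingHom t) v P := by
    intro v
    rw [hPt, MvPolynomial.eval_map]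
  have h1 : MvPolynomial.eval x0.rep Pt ≠ 0 := by rwa [hPtev, ← hRev]
  obtain ⟨w0, hw0, hw0l⟩ := exists_last_one hPth h1
  obtain ⟨z, hz1, hz2⟩ := exists_chain e ht0 m
  have hcard : m < ((Finset.range (m + 1)).image fun j => (gmap e t)^[j] z).card := by
    rw [Finset.card_image_of_injOn (chain_injOn e hz1 hz2)]
    simp
  obtain ⟨w, hw1, hw2, hw3⟩ := exists_update hPth.totalDegree_le hw0 _ hcard
    (Finset.univ.filter fun i : Fin (N + 1) => ¬ (i.val = 1 ∨ i = Fin.last N))
  set i1 : Fin (N + 1) := ⟨1, by omega⟩ with hi1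
  have hi1l : Fin.last N ≠ i1 := by
    intro h
    have := congrArg Fin.val h
    simp [hi1] at this
    omega
  have hwl : w (Fin.last N) = 1 := by rw [hw3 _ (by simp), hw0l]
  obtain ⟨B, hB1, hB2⟩ := exists_bad hPth.totalDegree_le hw1 i1
  set y : ℕ → Qbar := fun j => algebraMap ℚ Qbar (tow e j) with hy
  set u : ℕ → Fin (N + 1) → Qbar := fun j => Function.update w i1 (y j) with hu
  have hul : ∀ j, u j (Fin.last N) = 1 := fun j => by
    simp only [hu]
    rw [Function.update_of_ne hi1l, hwl]
  have hune : ∀ j, u j ≠ 0 := fun j h => by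
    have := hul j
    rw [h] at this
    simp at this
  set x : ℕ → Proj N := fun j => Projectivization.mk Qbar (u j) (hune j) with hx
  have hxinj : Function.Injective x := by
    intro a b h
    obtain ⟨c, hc⟩ := (Projectivization.mk_eq_mk_iff' Qbar _ _ (hune a) (hune b)).1 h
    have h2 := congrFun hc (Fin.last N)
    rw [Pi.smul_apply, hul, hul, smul_eq_mul, mul_one] at h2
    rw [h2, one_smul] at hc
    have h3 := congrFun hc i1
    simp only [hu, Function.update_self] at h3
    exact (tow_inj e h3).symm
  set T : Finset ℕ := (Finset.range (B0 + m + 1)).filter fun j => y j ∉ B with hT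
  have hTcard : B0 + 1 ≤ T.card := by
    have h2 := Finset.card_filter_add_card_filter_not (s := Finset.range (B0 + m + 1))
      (fun j => y j ∉ B)
    have h3 : ((Finset.range (B0 + m + 1)).filter fun j => ¬ y j ∉ B).card ≤ B.card := by
      refine Finset.card_le_card_of_injOn y ?_ (tow_inj e).injOn
      intro j hj
      simpa using (Finset.mem_filter.1 hj).2
    rw [Finset.card_range, ← hT] at h2
    omega
  have hsub : ((T.image x : Finset (Proj N)) : Set (Proj N)) ⊆
      {p | p ∈ preim (endo (isFamily_fam N e) t) ((mark hN).at t) ((e + 2) ^ (m + 1)) ∧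
        (t, p) ∉ {p : Qbar × Proj N |
          ∀ P ∈ S, MvPolynomial.eval₂ (Polynomial.evalRingHom p.1) p.2.rep P = 0}} := by
    intro p hp
    obtain ⟨j, hj, rfl⟩ := Finset.mem_image.1 (Finset.mem_coe.1 hp)
    obtain ⟨hj1, hj2⟩ := Finset.mem_filter.1 hj
    rw [Finset.mem_range] at hj1
    have hcases : ∀ i, i ≠ i1 → i ≠ Fin.last N → ∃ l ≤ m, u j i = (gmap e t)^[l] z := by
      intro i hi hil
      have h2 : ¬ (i.val = 1 ∨ i = Fin.last N) := by
        rintro (h | h)
        · exact hi (Fin.ext h)
        · exact hil h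
      obtain ⟨l, hl, hl2⟩ := Finset.mem_image.1 (hw2 i (by simpa using h2))
      refine ⟨l, by simpa [Nat.lt_succ_iff] using hl, ?_⟩
      simp only [hu]
      rw [Function.update_of_ne hi, hl2]
    refine ⟨⟨?_, n - j, ?_⟩, ?_⟩
    · refine (ptDegree_le (z := z) (hune j) ?_).trans (chain_degree e (tow e n) hz2)
      intro i
      by_cases hi : i = i1
      · subst hi
        simp only [hu, Function.update_self, hy]
        exact IntermediateField.algebraMap_mem _ _
      · by_cases hil : i = Fin.last N
        · subst hil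
          rw [hul]
          exact one_mem _
        · obtain ⟨l, -, hl⟩ := hcases i hi hil
          rw [hl]
          exact iterate_mem e _ z l
    · simp only [hx]
      rw [endo_iterate_mk]
      unfold MarkedPoint.at
      congr 1
      funext i
      rw [iterate_spec e t _ _ (hul j)]
      by_cases hi : i = i1
      · subst hi
        have hc : cf t i1 = 0 := by simp [cf, hi1]
        rw [hc, gmap_zero_iterate]
        simp only [hu, Function.update_self, hy, vecAt, mark, hi1, if_true, aeval_X, ht]
        rw [← map_pow, tow, tow, ← pow_mul, ← pow_add]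
        congr 3
        omega
      · have hi' : ¬ i.val = 1 := fun h => hi (Fin.ext h)
        by_cases hil : i = Fin.last N
        · subst hil
          rw [cf_last, hul, gmap_zero_iterate]
          simp only [vecAt, mark, hi', if_false, if_true, map_one, one_pow]
        · obtain ⟨l, hl1, hl⟩ := hcases i hi hil
          have hc : cf t i = t := by simp [cf, hi', hil]
          rw [hc, hl, ← Function.iterate_add_apply,
            show n - j + l = (n - j + l - (m + 1)) + (m + 1) by omega,
            Function.iterate_add_apply, hz2, Function.iterate_fixed (by simp [gmap])]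
          simp only [vecAt, mark, hi', hil, if_false, map_zero]
    · intro h
      have h2 := h P hPS
      simp only [hx] at h2
      obtain ⟨a, ha⟩ := Projectivization.exists_smul_eq_mk_rep Qbar (u j) (hune j)
      rw [← hPtev, ← ha, Units.smul_def, eval_smul_of_hom hPth] at h2
      exact mul_ne_zero (pow_ne_zero _ a.ne_zero) (hB2 _ hj2) h2
  have h5 := (Set.encard_le_encard hsub).trans
    (hB0 t ((numDegree_rat _).trans (Nat.one_le_pow _ _ (by omega))))
  rw [Set.encard_coe_eq_coe_finsetCard, Finset.card_image_of_injective _ hxinj] at h5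
  have h6 : T.card ≤ B0 := by exact_mod_cast h5
  omega

theorem main (N d : ℕ) (hN : 2 ≤ N) (hd : 2 ≤ d) :
    ∃ (F : Tuple N) (hF : IsFamily d F) (a : MarkedPoint N), MaximalVarying F ∧ ¬ Star hF a := by
  obtain ⟨e, rfl⟩ : ∃ e, d = e + 2 := ⟨d - 2, by omega⟩
  exact ⟨fam N e, isFamily_fam N e, mark hN, maximalVarying_fam hN e, not_star hN e⟩

end

end Pool.Agent.H860Z.Preim
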