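import Mathlib

/-!
Definitions for algebraic families of endomorphisms of projective space over the affine line,
marked points, low-degree iterated preimages and the uniform boundedness property.
-/

namespace Pool.Agent.H860Z.Preim

open scoped IntermediateField

noncomputable section

/-- The field of algebraic numbers. -/
abbrev Qbar : Type := AlgebraicClosure ℚ

/-- The points of projective `N`-space over the algebraic numbers. -/
abbrev Proj (N : ℕ) : Type := Projectivization Qbar (Fin (N + 1) → Qbar)

/-- An `(N+1)`-tuple of polynomials in the homogeneous coordinates `X_0, ..., X_N` whose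
coefficients are polynomials over `ℚ` in the parameter `t` of the affine line. -/
abbrev Tuple (N : ℕ) : Type := Fin (N + 1) → MvPolynomial (Fin (N + 1)) (Polynomial ℚ)

variable {N : ℕ}

/-- The tuple `F` with the parameter specialised to `t`, evaluated at the vector `v`. -/
def spec (F : Tuple N) (t : Qbar) (v : Fin (N + 1) → Qbar) : Fin (N + 1) → Qbar :=
  fun i => MvPolynomial.eval₂ (Polynomial.eval₂RingHom (algebraMap ℚ Qbar) t) v (F i)

/-- `F` is an algebraic family, over the affine line and defined over `ℚ`, of degree `d`
endomorphisms of projective `N`-space: its entries are forms of degree `d`, and for every value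
`t` of the parameter they have no common nontrivial zero. -/
def IsFamily (d : ℕ) (F : Tuple N) : Prop :=
  (∀ i, (F i).IsHomogeneous d) ∧ ∀ (t : Qbar) (v : Fin (N + 1) → Qbar), v ≠ 0 → spec F t v ≠ 0

/-- `f_t` and `f_s` are conjugate under `PGL_{N+1}`: there is an invertible matrix `A` such that
the tuples of forms `F_t ∘ A` and `A ∘ F_s` agree up to a nonzero scalar. -/
def Conj (F : Tuple N) (s t : Qbar) : Prop :=
  ∃ (A : GL (Fin (N + 1)) Qbar) (c : Qbar), c ≠ 0 ∧ ∀ v : Fin (N + 1) → Qbar,
    spec F t (Matrix.mulVec A.val v) = c • Matrix.mulVec A.val (spec F s v)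

/-- The family is maximal varying: the map from the parameter line to the moduli space of
conjugacy classes has finite fibres. -/
def MaximalVarying (F : Tuple N) : Prop :=
  ∀ s : Qbar, {t : Qbar | Conj F s t}.Finite

/-- The value at `t` of a tuple of polynomials in the parameter. -/
def vecAt (a : Fin (N + 1) → Polynomial ℚ) (t : Qbar) : Fin (N + 1) → Qbar :=
  fun i => Polynomial.aeval t (a i)

/-- A marked point: a morphism, defined over `ℚ`, from the affine line to projective space, given
by a tuple of polynomials without common zero. -/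
structure MarkedPoint (N : ℕ) where
  coords : Fin (N + 1) → Polynomial ℚ
  ne_zero : ∀ t : Qbar, vecAt coords t ≠ 0

/-- The point `a_t`. -/
def MarkedPoint.at (a : MarkedPoint N) (t : Qbar) : Proj N :=
  Projectivization.mk Qbar (vecAt a.coords t) (a.ne_zero t)

/-- The endomorphism `f_t` of projective space given by the family `F`. -/
def endo {d : ℕ} {F : Tuple N} (hF : IsFamily d F) (t : Qbar) (x : Proj N) : Proj N :=
  Projectivization.mk Qbar (spec F t x.rep) (hF.2 t x.rep x.rep_nonzero)

/-- The degree `[ℚ(t) : ℚ]` of an algebraic number. -/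
def numDegree (t : Qbar) : ℕ := Module.finrank ℚ ℚ⟮t⟯

/-- The degree `[ℚ(x) : ℚ]` of a point of projective space, `ℚ(x)` being generated by the ratios
of the homogeneous coordinates. -/
def ptDegree (x : Proj N) : ℕ :=
  Module.finrank ℚ (IntermediateField.adjoin ℚ {r : Qbar | ∃ i j, r = x.rep i / x.rep j})

/-- `Preim(g, a, D)`: the points of degree at most `D` that some iterate of `g` sends to `a`. -/
def preim (g : Proj N → Proj N) (a : Proj N) (D : ℕ) : Set (Proj N) :=
  {x | ptDegree x ≤ D ∧ ∃ n : ℕ, g^[n] x = a}

/-- Zariski closed subsets, over the algebraic numbers, of the product of the affine line and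
projective space: common zero sets of sets of polynomials in `t, X_0, ..., X_N` that are
homogeneous in `X_0, ..., X_N`. -/
def IsZariskiClosed (V : Set (Qbar × Proj N)) : Prop :=
  ∃ S : Set (MvPolynomial (Fin (N + 1)) (Polynomial Qbar)),
    (∀ P ∈ S, ∃ m, P.IsHomogeneous m) ∧
      V = {p | ∀ P ∈ S, MvPolynomial.eval₂ (Polynomial.evalRingHom p.1) p.2.rep P = 0}

/-- `ν_V(t, D)`, as an extended natural number. -/
def nu {d : ℕ} {F : Tuple N} (hF : IsFamily d F) (a : MarkedPoint N) (V : Set (Qbar × Proj N))
    (t : Qbar) (D : ℕ) : ℕ∞ :=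
  {x | x ∈ preim (endo hF t) (a.at t) D ∧ (t, x) ∉ V}.encard

/-- Property `(*)` of the problem (for `N ≥ 2`): there is a proper Zariski closed set `V` such
that for every `D ≥ 1` the numbers `ν_V(t, D)`, for `t` of degree at most `D`, are bounded. -/
def Star {d : ℕ} {F : Tuple N} (hF : IsFamily d F) (a : MarkedPoint N) : Prop :=
  ∃ V : Set (Qbar × Proj N), IsZariskiClosed V ∧ V ≠ Set.univ ∧
    ∀ D : ℕ, 1 ≤ D → ∃ C : ℕ, ∀ t : Qbar, numDegree t ≤ D → nu hF a V t D ≤ C

end

end Pool.Agent.H860Z.Preim
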